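import Mathlib

set_option autoImplicit false

namespace Pool.Agent.H158Z.Growth

open Equiv Finset

variable {α : Type} [Fintype α] [DecidableEq α]

/-- `U` meets every class of some `σ`-invariant labelling at most once. -/
def Sep (σ : Perm α) (U : Finset α) : Prop :=
  ∃ f : α → α, Set.InjOn f U ∧ ∀ x, f (σ x) = f x

/-- permutations with at least `card α - m` cycles (fixed points included) -/
def Ball (m : ℕ) : Set (Perm α) := {σ | ∃ U : Finset α, Uᶜ.card ≤ m ∧ Sep σ U}

theorem one_mem_ball (m : ℕ) : (1 : Perm α) ∈ Ball m :=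
  ⟨univ, by simp, id, fun _ _ _ _ h => h, fun _ => rfl⟩

theorem ball_mono {m m' : ℕ} (h : m ≤ m') : (Ball m : Set (Perm α)) ⊆ Ball m' :=
  fun _ ⟨U, hU, hs⟩ => ⟨U, hU.trans h, hs⟩

theorem mul_swap_mem {m : ℕ} {σ : Perm α} (h : σ ∈ Ball m) (a b : α) :
    σ * swap a b ∈ Ball (m + 1) := by
  obtain ⟨U, hU, f, hf, hσ⟩ := h
  refine ⟨U.filter (fun u => f u ≠ f b), ?_, fun x => if f x = f b then f a else f x, ?_, ?_⟩
  · have h1 : (U.filter (fun u => f u ≠ f b))ᶜ ⊆ Uᶜ ∪ U.filter (fun u => f u = f b) := by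
      intro x hx
      simp only [mem_compl, mem_filter, mem_union] at hx ⊢
      tauto
    have h2 : (U.filter (fun u => f u = f b)).card ≤ 1 := by
      rw [card_le_one]
      intro x hx y hy
      rw [mem_filter] at hx hy
      exact hf hx.1 hy.1 (hx.2.trans hy.2.symm)
    exact (card_le_card h1).trans ((card_union_le _ _).trans (by omega))
  · intro x hx y hy hxy
    simp only [coe_filter, Set.mem_setOf_eq] at hx hy
    simp only [if_neg hx.2, if_neg hy.2] at hxy
    exact hf hx.1 hy.1 hxy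
  · intro x
    simp only [Perm.mul_apply, hσ]
    by_cases ha : x = a
    · subst ha
      rw [swap_apply_left]; simp
    · by_cases hb : x = b
      · subst hb
        rw [swap_apply_right]; simp
      · rw [swap_apply_of_ne_of_ne ha hb]

theorem sep_pow {σ : Perm α} {f : α → α} (hσ : ∀ x, f (σ x) = f x) (n : ℕ) (x : α) :
    f ((σ ^ n) x) = f x := by
  induction n with
  | zero => rfl
  | succ n ih => rw [pow_succ', Perm.mul_apply, hσ, ih]

theorem sep_ext {σ τ : Perm α} {U : Finset α} (hσ : Sep σ U) (hτ : Sep τ U)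
    (h : ∀ x, x ∉ U → σ x = τ x) : σ = τ := by
  obtain ⟨f, hf, hfσ⟩ := hσ
  obtain ⟨f', hf', hfτ⟩ := hτ
  ext u
  by_cases hu : u ∈ U
  swap
  · exact h u hu
  set s := σ u with hs
  set u' := τ.symm s with hu'
  have hτu' : τ u' = s := τ.apply_symm_apply s
  have hu'U : u' ∈ U := by
    by_contra hn
    have := h u' hn
    rw [hτu', hs] at this
    exact hn (σ.injective this ▸ hu)
  have hex : ∃ n, (σ ^ n) s ∈ U := by
    refine ⟨orderOf σ - 1, ?_⟩
    have h1 : 0 < orderOf σ := orderOf_pos σ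
    rw [hs, ← Perm.mul_apply, ← pow_succ, Nat.sub_add_cancel h1, pow_orderOf_eq_one]
    exact hu
  classical
  have hagree : ∀ i, i ≤ Nat.find hex → (σ ^ i) s = (τ ^ i) s := by
    intro i
    induction i with
    | zero => intro _; rfl
    | succ i ih =>
      intro hi
      rw [pow_succ', pow_succ', Perm.mul_apply, Perm.mul_apply, ← ih (by omega)]
      exact h _ (Nat.find_min hex (by omega))
  have hj := Nat.find_spec hex
  have e1 : (σ ^ Nat.find hex) s = u := by
    apply hf hj hu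
    rw [sep_pow hfσ, hs, hfσ]
  have e2 : (σ ^ Nat.find hex) s = u' := by
    apply hf' hj hu'U
    rw [hagree _ le_rfl, sep_pow hfτ, ← hτu', hfτ]
  rw [← hτu', ← e2, e1]

theorem ball_card (m : ℕ) (hα : 1 ≤ Fintype.card α) :
    (Ball m : Set (Perm α)).ncard ≤ 2 ^ Fintype.card α * Fintype.card α ^ m := by
  classical
  have h1 : (Ball m : Set (Perm α)) =
      ↑((univ.filter fun U : Finset α => Uᶜ.card ≤ m).biUnion
        fun U => univ.filter fun σ : Perm α => Sep σ U) := by
    ext σ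
    simp [Ball]
  rw [h1, Set.ncard_coe_finset]
  refine card_biUnion_le.trans ?_
  refine (sum_le_card_nsmul _ _ (Fintype.card α ^ m) ?_).trans ?_
  · intro U hU
    have hU' := (mem_filter.1 hU).2
    have : (univ.filter fun σ : Perm α => Sep σ U).card ≤
        (univ : Finset (↥(Uᶜ) → α)).card := by
      apply card_le_card_of_injOn (fun σ x => σ x.1) (fun _ _ => mem_coe.2 (mem_univ _))
      intro σ hσ τ hτ hστ
      simp only [coe_filter, mem_univ, true_and, Set.mem_setOf_eq] at hσ hτ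
      exact sep_ext hσ hτ fun x hx => congrFun hστ ⟨x, mem_compl.2 hx⟩
    refine this.trans ?_
    rw [card_univ, Fintype.card_fun, Fintype.card_coe]
    exact Nat.pow_le_pow_right hα hU'
  · rw [smul_eq_mul]
    apply Nat.mul_le_mul_right
    refine (card_le_univ _).trans ?_
    simp

/-- the even permutations in the ball -/
def X (α : Type) [Fintype α] [DecidableEq α] (k : ℕ) : Set (alternatingGroup α) :=
  {σ | (σ : Perm α) ∈ Ball (2 * k)}

theorem X_card (k : ℕ) (hα : 1 ≤ Fintype.card α) :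
    (X α k).ncard ≤ 2 ^ Fintype.card α * Fintype.card α ^ (2 * k) := by
  refine le_trans ?_ (ball_card (2 * k) hα)
  exact Set.ncard_le_ncard_of_injOn (fun σ => (σ : Perm α)) (fun σ h => h)
    (fun _ _ _ _ h => Subtype.ext h) (Set.toFinite _)

theorem X_mono {k k' : ℕ} (h : k ≤ k') : X α k ⊆ X α k' :=
  fun _ hσ => ball_mono (by omega) hσ

theorem one_mem_X (k : ℕ) : 1 ∈ X α k := one_mem_ball _

/-- a double transposition with one point in each of four blocks -/
def dbl {q : ℕ} (t : Fin 4 → Fin q) : alternatingGroup (Fin 4 × Fin q) :=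
  ⟨swap (0, t 0) (1, t 1) * swap (2, t 2) (3, t 3), by
    rw [Perm.mem_alternatingGroup, map_mul, Perm.sign_swap (by simp), Perm.sign_swap (by simp)]
    simp⟩

theorem dbl_moves {q : ℕ} (t : Fin 4 → Fin q) (i : Fin 4) (x : Fin q) :
    (dbl t : Perm (Fin 4 × Fin q)) (i, x) = (i, x) ↔ x ≠ t i := by
  simp only [dbl, Perm.mul_apply]
  by_cases h : x = t i <;> fin_cases i <;> simp_all [swap_apply_def]

theorem dbl_inj {q : ℕ} : Function.Injective (dbl (q := q)) := by
  intro t t' h
  funext i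
  by_contra hne
  have h1 := (dbl_moves t' i (t i)).2 hne
  rw [← h, dbl_moves] at h1
  exact h1 rfl

theorem mul_conj_mem {q k : ℕ} {b : alternatingGroup (Fin 4 × Fin q)} (hb : b ∈ X _ k)
    (g : alternatingGroup (Fin 4 × Fin q)) (t : Fin 4 → Fin q) :
    b * (g⁻¹ * dbl t * g) ∈ X _ (k + 1) := by
  have h : ((b * (g⁻¹ * dbl t * g) : alternatingGroup (Fin 4 × Fin q)) : Perm (Fin 4 × Fin q)) =
      b * swap ((g : Perm (Fin 4 × Fin q))⁻¹ (0, t 0)) ((g : Perm (Fin 4 × Fin q))⁻¹ (1, t 1)) *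
        swap ((g : Perm (Fin 4 × Fin q))⁻¹ (2, t 2)) ((g : Perm (Fin 4 × Fin q))⁻¹ (3, t 3)) := by
    rw [swap_apply_apply, swap_apply_apply]
    simp only [dbl, Subgroup.coe_mul, Subgroup.coe_inv]
    group
  show _ ∈ Ball (2 * k + 1 + 1)
  rw [h]
  exact mul_swap_mem (mul_swap_mem hb _ _) _ _

theorem alt_card {q : ℕ} (hq : 2 ≤ q) :
    q ^ (3 * q) ≤ Nat.card (alternatingGroup (Fin 4 × Fin q)) := by
  have : Nontrivial (Fin 4 × Fin q) := by
    have : Nonempty (Fin q) := ⟨⟨0, by omega⟩⟩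
    infer_instance
  have h1 := two_mul_nat_card_alternatingGroup (α := Fin 4 × Fin q)
  rw [Nat.card_perm] at h1
  have h2 : Nat.card (Fin 4 × Fin q) = 4 * q := by simp
  rw [h2] at h1
  have h3 := Nat.factorial_mul_pow_sub_le_factorial (n := q) (m := 4 * q) (by omega)
  have h4 : 2 ≤ q.factorial := le_trans hq (Nat.self_le_factorial q)
  rw [show 4 * q - q = 3 * q by omega] at h3
  have h5 : 2 * q ^ (3 * q) ≤ q.factorial * q ^ (3 * q) := Nat.mul_le_mul_right _ h4
  omega

theorem num_ineq {M K q : ℕ} (hq : q = M * K) (hK : 0 < K) (hlt : 16 ^ (M + 1) < q) :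
    2 ^ (4 * q) * (4 * q) ^ (2 * K) < q ^ (3 * K) := by
  have h0 : 0 < q := lt_of_le_of_lt (Nat.zero_le _) hlt
  have h1 : 2 ^ (4 * q) * (4 * q) ^ (2 * K) = (16 ^ (M + 1)) ^ K * q ^ (2 * K) := by
    rw [mul_pow, pow_mul 2 4 q, pow_mul 4 2 K, ← pow_mul 16 (M + 1) K, add_mul, pow_add, ← hq]
    norm_num
    ring
  rw [h1, show 3 * K = K + 2 * K by ring, pow_add q K]
  exact Nat.mul_lt_mul_of_pos_right (Nat.pow_lt_pow_left hlt hK.ne') (Nat.pow_pos h0)

end Pool.Agent.H158Z.Growth
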