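import Pool.Agent.H535Z.HG.St

set_option autoImplicit false

namespace Pool.Agent.H158Z.Lim

open Pool.Agent.H668Z.SC Pool.Agent.H535Z.HG

section task

variable {G : Type} [Group G] {i z y : G}

theorem inv_i (hA : Alg G i z y) : i⁻¹ = i := inv_eq_of_mul_eq_one_right hA.sq

theorem mem_E (hA : Alg G i z y) {t : G} : t ∈ Epm i ↔ Commute t i := by
  rw [mem_Epm, inv_i hA, or_self, Commute, SemiconjBy, mul_inv_eq_iff_eq_mul]

theorem mal (h4 : S_mal) (hH : Hyp G) (hA : Alg G i z y) {t e : G} (ht : t ∉ Epm i)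
    (he : e ∈ Epm i) (he' : t⁻¹ * e * t ∈ Epm i) : e = 1 := by
  rw [mem_E hA] at ht he he'
  refine h4 G i z y hH hA i (t * i * t⁻¹) e hA.sq hA.ne ?_ ?_ ?_ he ?_
  · calc t * i * t⁻¹ * (t * i * t⁻¹) = t * (i * i) * t⁻¹ := by group
      _ = 1 := by rw [hA.sq]; group
  · intro h
    apply hA.ne
    calc i = t⁻¹ * (t * i * t⁻¹) * t := by group
      _ = 1 := by rw [h]; group
  · intro h
    apply ht
    calc t * i = (t * i * t⁻¹) * t := by group
      _ = i * t := by rw [← h]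
  · calc e * (t * i * t⁻¹) = t * (t⁻¹ * e * t * i) * t⁻¹ := by group
      _ = t * (i * (t⁻¹ * e * t)) * t⁻¹ := by rw [he'.eq]
      _ = t * i * t⁻¹ * e := by group

theorem task_a (h4 : S_mal) (h5 : S_step) (hH : Hyp G) (hA : Alg G i z y) (t : G) :
    ∃ (G' : Type) (_ : Group G') (π : G →* G'), Function.Surjective π ∧ Hyp G' ∧
      Alg G' (π i) (π z) (π y) ∧ IsOfFinOrder (π (i * (t * i * t⁻¹))) := by
  by_cases hs : IsOfFinOrder (i * (t * i * t⁻¹))
  · exact ⟨G, inferInstance, MonoidHom.id G, Function.surjective_id, hH, hA, hs⟩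
  set s := i * (t * i * t⁻¹) with hsd
  have hinv : i * s * i⁻¹ = s⁻¹ := by
    rw [hsd, ← mul_assoc i i, hA.sq, one_mul, mul_inv_rev, mul_inv_rev, mul_inv_rev, inv_inv,
      inv_i hA, mul_assoc t i]
  obtain ⟨G', _, π, h1, h2, h3, n, -, hn, hπ⟩ := h5 G i z y hH hA s hs (by
    intro x hx hc
    by_contra hx1
    have hxi : x = i * x * i⁻¹ := by
      by_contra hne
      apply hs
      have : s = 1 := by
        refine h4 G i z y hH hA x (i * x * i⁻¹) s hx hx1 ?_ ?_ hne hc.symm ?_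
        · calc i * x * i⁻¹ * (i * x * i⁻¹) = i * (x * x) * i⁻¹ := by group
            _ = 1 := by rw [hx]; group
        · intro h
          apply hx1
          calc x = i⁻¹ * (i * x * i⁻¹) * i := by group
            _ = 1 := by rw [h]; group
        · have h1 : Commute (i * s * i⁻¹) (i * x * i⁻¹) := by
            calc i * s * i⁻¹ * (i * x * i⁻¹) = i * (s * x) * i⁻¹ := by group
              _ = i * (x * s) * i⁻¹ := by rw [hc.eq]
              _ = i * x * i⁻¹ * (i * s * i⁻¹) := by group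
          rw [hinv] at h1
          simpa using h1.inv_left
      rw [this]
      exact IsOfFinOrder.one
    have hci : Commute x i := by
      calc x * i = i * x * i⁻¹ * i := by rw [← hxi]
        _ = i * x := by group
    by_cases hxe : x = i
    · apply hs
      rw [hxe] at hc
      have h1 : s = s⁻¹ := by
        rw [← hinv, hc.eq]; group
      refine isOfFinOrder_iff_pow_eq_one.2 ⟨2, by norm_num, ?_⟩
      rw [pow_two]
      nth_rewrite 2 [h1]
      exact mul_inv_cancel s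
    · exact hx1 (h4 G i z y hH hA x i x hx hx1 hA.sq hA.ne hxe (Commute.refl x) hci))
    1 Nat.one_pos
  exact ⟨G', inferInstance, π, h1, h2, h3, isOfFinOrder_iff_pow_eq_one.2 ⟨n, hn, hπ⟩⟩

theorem exists_conj (h4 : S_mal) (hH : Hyp G) (hA : Alg G i z y) (a g : G) (hg : g ≠ 1) :
    ∃ u : G, u * g * u⁻¹ ∉ Epm i ∧ a⁻¹ * (u * g * u⁻¹) ∉ Epm i := by
  have hz : z ∈ Epm i := (mem_E hA).2 hA.zi
  have h1 : ∃ u : G, u * g * u⁻¹ ∉ Epm i := by
    by_cases h : g ∈ Epm i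
    · refine ⟨y, fun h' => hg (mal h4 hH hA (t := y⁻¹) ?_ h (by simpa using h'))⟩
      intro hy
      exact hA.yi ((mem_E hA).1 (by simpa using (Epm i).inv_mem hy))
    · exact ⟨1, by simpa using h⟩
  obtain ⟨u, hu⟩ := h1
  by_cases h : a⁻¹ * (u * g * u⁻¹) ∈ Epm i
  · refine ⟨z * u, fun h' => hu ?_, fun h' => ?_⟩
    · have := (Epm i).mul_mem ((Epm i).mul_mem ((Epm i).inv_mem hz) h') hz
      convert this using 1
      group
    · have h2 := (Epm i).mul_mem ((Epm i).mul_mem ((Epm i).inv_mem h) h') hz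
      have h3 : (u * g * u⁻¹)⁻¹ * z * (u * g * u⁻¹) ∈ Epm i := by
        convert h2 using 1
        group
      apply hA.zinf
      rw [mal h4 hH hA hu hz h3]
      exact IsOfFinOrder.one
  · exact ⟨u, hu, h⟩

theorem task_b (h1 : S_qc) (h2 : S_cone) (h3 : S_ex) (h4 : S_mal) (h5 : S_step) (hH : Hyp G)
    (hA : Alg G i z y) (a g : G) (m : ℕ) (hm : 0 < m) :
    ∃ (G' : Type) (_ : Group G') (π : G →* G'),
      Function.Surjective π ∧ Hyp G' ∧ Alg G' (π i) (π z) (π y) ∧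
      (π g = 1 ∨ ∃ n : ℕ, n.Coprime m ∧ 0 < n ∧
        π a ^ n ∈ Subgroup.normalClosure ({π g} : Set G')) := by
  by_cases hg : g = 1
  · exact ⟨G, inferInstance, MonoidHom.id G, Function.surjective_id, hH, hA, Or.inl hg⟩
  obtain ⟨V, _, X, o, hgeo⟩ := id hH
  have hmal : AMal (Epm i) := fun t ht =>
    (Set.finite_singleton (1 : G)).subset fun e he => mal h4 hH hA ht he.1 he.2
  obtain ⟨W, _, Y, o', c, hc⟩ := h2 G V X o (Epm i) hgeo (h1 G V X o hgeo i) hmal
  have hz : z ∈ Epm i := (mem_E hA).2 hA.zi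
  have hinf : Infinite (Epm i) := by
    refine Infinite.of_injective (fun n : ℕ => (⟨z ^ n, (Epm i).pow_mem hz n⟩ : Epm i)) ?_
    intro n n' h
    exact injective_pow_iff_not_isOfFinOrder.2 hA.zinf (congrArg Subtype.val h)
  obtain ⟨u, hu1, hu2⟩ := exists_conj h4 hH hA a g hg
  obtain ⟨x, -, hx⟩ := h3 G W Y o' c (Epm i) hc hinf a _ hu1 hu2
  set h := a * x * (u * g * u⁻¹) * x⁻¹ * (u * g * u⁻¹)⁻¹ with hh
  obtain ⟨G', _, π, p1, p2, p3, n, hn1, hn2, hπ⟩ := h5 G i z y hH hA h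
    (by
      intro hf
      obtain ⟨k, hk, hk1⟩ := isOfFinOrder_iff_pow_eq_one.1 hf
      apply hx k hk 1
      rw [hk1]
      simpa using (Epm i).one_mem)
    (by
      intro w hw hc'
      by_contra hw1
      obtain ⟨t, rfl⟩ := hA.conj w hw hw1
      apply hx 1 Nat.one_pos t
      rw [mem_E hA, pow_one]
      calc t⁻¹ * h * t * i = t⁻¹ * (h * (t * i * t⁻¹)) * t := by group
        _ = t⁻¹ * (t * i * t⁻¹ * h) * t := by rw [hc'.eq]
        _ = i * (t⁻¹ * h * t) := by group)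
    m hm
  refine ⟨G', inferInstance, π, p1, p2, p3, Or.inr ⟨n, hn1, hn2, ?_⟩⟩
  let q := QuotientGroup.mk' (Subgroup.normalClosure ({π g} : Set G'))
  have hq : q (π g) = 1 :=
    (QuotientGroup.eq_one_iff _).2 (Subgroup.subset_normalClosure (Set.mem_singleton _))
  have hqh : q (π h) = q (π a) := by
    simp only [hh, map_mul, map_inv, hq]
    group
  refine (QuotientGroup.eq_one_iff _).1 ?_
  change q (π a ^ n) = 1
  rw [map_pow, ← hqh, ← map_pow, hπ, map_one]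

end task

theorem thm_task (h1 : S_qc) (h2 : S_cone) (h3 : S_ex) (h4 : S_mal) (h5 : S_step) : S_task :=
  fun _ _ _ _ _ hH hA =>
    ⟨task_a h4 h5 hH hA, fun a g m hm => task_b h1 h2 h3 h4 h5 hH hA a g m hm⟩

section lim

/-- A stage of the tower. -/
structure Stage (G₀ : Type) [Group G₀] (i z y : G₀) where
  G : Type
  [grp : Group G]
  φ : G₀ →* G
  surj : Function.Surjective φ
  hyp : Hyp G
  alg : Alg G (φ i) (φ z) (φ y)

attribute [instance] Stage.grp

variable {G₀ : Type} [Group G₀] {i z y : G₀}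

/-- The task is done at the stage. -/
def Done (S : Stage G₀ i z y) : G₀ ⊕ G₀ × G₀ × ℕ → Prop
  | Sum.inl t => IsOfFinOrder (S.φ (i * (t * i * t⁻¹)))
  | Sum.inr (a, g, m) => S.φ g = 1 ∨ ∃ n : ℕ, n.Coprime (m + 1) ∧ 0 < n ∧
      S.φ a ^ n ∈ Subgroup.normalClosure ({S.φ g} : Set S.G)

theorem exists_next (ht : S_task) (S : Stage G₀ i z y) (τ : G₀ ⊕ G₀ × G₀ × ℕ) :
    ∃ S' : Stage G₀ i z y, (∀ x, S.φ x = 1 → S'.φ x = 1) ∧ Done S' τ := by
  obtain ⟨ha, hb⟩ := ht S.G _ _ _ S.hyp S.alg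
  rcases τ with t | ⟨a, g, m⟩
  · obtain ⟨G', _, π, p1, p2, p3, p4⟩ := ha (S.φ t)
    refine ⟨⟨G', π.comp S.φ, p1.comp S.surj, p2, p3⟩, fun x hx => ?_, ?_⟩
    · show π (S.φ x) = 1
      rw [hx, map_one]
    · show IsOfFinOrder (π (S.φ _))
      simpa only [map_mul, map_inv] using p4
  · obtain ⟨G', _, π, p1, p2, p3, p4⟩ := hb (S.φ a) (S.φ g) (m + 1) m.succ_pos
    refine ⟨⟨G', π.comp S.φ, p1.comp S.surj, p2, p3⟩, fun x hx => ?_, p4⟩
    show π (S.φ x) = 1
    rw [hx, map_one]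

theorem exists_tower (ht : S_task) (S₀ : Stage G₀ i z y) (τ : ℕ → G₀ ⊕ G₀ × G₀ × ℕ) :
    ∃ S : ℕ → Stage G₀ i z y, (∀ n x, (S n).φ x = 1 → (S (n + 1)).φ x = 1) ∧
      ∀ n, Done (S (n + 1)) (τ n) := by
  choose nx h1 h2 using exists_next (i := i) (z := z) (y := y) ht
  exact ⟨fun n => Nat.rec S₀ (fun k s => nx s (τ k)) n, fun n => h1 _ _, fun n => h2 _ _⟩

theorem countable_of_hyp {G : Type} [Group G] (h : Hyp G) : Countable G := by
  obtain ⟨V, _, X, o, hgeo⟩ := h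
  rw [← Set.countable_univ_iff]
  refine (Set.countable_iUnion fun R => (hgeo.prop R).countable).mono fun g _ => ?_
  exact Set.mem_iUnion.2 ⟨X.d o (g • o), le_refl (X.d o (g • o))⟩

theorem limit (S : ℕ → Stage G₀ i z y) (hS : ∀ n x, (S n).φ x = 1 → (S (n + 1)).φ x = 1) :
    ∃ (G : Type) (_ : Group G) (ψ : G₀ →* G) (l : ∀ n, (S n).G →* G), Function.Surjective ψ ∧
      (∀ n x, l n ((S n).φ x) = ψ x) ∧
      ∀ a b, ψ a = ψ b → ∀ᶠ n in Filter.atTop, (S n).φ a = (S n).φ b := by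
  have hmono : ∀ n m, n ≤ m → ∀ x, (S n).φ x = 1 → (S m).φ x = 1 := by
    intro n m hnm x hx
    induction hnm with
    | refl => exact hx
    | step _ ih => exact hS _ _ ih
  let K : Subgroup G₀ :=
    { carrier := {x | ∃ n, (S n).φ x = 1}
      one_mem' := ⟨0, map_one _⟩
      mul_mem' := by
        rintro a b ⟨n, hn⟩ ⟨m, hm⟩
        refine ⟨max n m, ?_⟩
        rw [map_mul, hmono _ _ (le_max_left _ _) _ hn, hmono _ _ (le_max_right _ _) _ hm, one_mul]
      inv_mem' := by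
        rintro a ⟨n, hn⟩
        exact ⟨n, by rw [map_inv, hn, inv_one]⟩ }
  have hK : K.Normal := ⟨by
    rintro a ⟨n, hn⟩ g
    exact ⟨n, by rw [map_mul, map_mul, hn, map_inv, mul_one, mul_inv_cancel]⟩⟩
  have hker : ∀ n, (S n).φ.ker ≤ (QuotientGroup.mk' K).ker := by
    intro n x hx
    rw [QuotientGroup.ker_mk']
    exact ⟨n, hx⟩
  refine ⟨G₀ ⧸ K, inferInstance, QuotientGroup.mk' K,
    fun n => (S n).φ.liftOfRightInverse _ (Function.rightInverse_surjInv (S n).surj)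
      ⟨QuotientGroup.mk' K, hker n⟩, QuotientGroup.mk'_surjective K, fun n x => ?_, ?_⟩
  · exact (S n).φ.liftOfRightInverse_comp_apply _ _ ⟨QuotientGroup.mk' K, hker n⟩ x
  · intro a b hab
    obtain ⟨n, hn⟩ : a⁻¹ * b ∈ K := QuotientGroup.eq.1 hab
    refine Filter.eventually_atTop.2 ⟨n, fun m hm => ?_⟩
    have := hmono n m hm _ hn
    rw [map_mul, map_inv] at this
    exact inv_mul_eq_one.1 this

theorem alg_limit (S : ℕ → Stage G₀ i z y) {G : Type} [Group G] (ψ : G₀ →* G)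
    (l : ∀ n, (S n).G →* G) (hψ : Function.Surjective ψ) (hl : ∀ n x, l n ((S n).φ x) = ψ x)
    (he : ∀ a b, ψ a = ψ b → ∀ᶠ n in Filter.atTop, (S n).φ a = (S n).φ b) :
    Alg G (ψ i) (ψ z) (ψ y) := by
  refine ⟨?_, ?_, ?_, ?_, ?_, ?_, ?_, ?_⟩
  · rw [← hl 0, ← map_mul, (S 0).alg.sq, map_one]
  · intro h
    obtain ⟨n, hn⟩ := (he i 1 (by rw [h, map_one])).exists
    exact (S n).alg.ne (by rw [hn, map_one])
  · rw [← hl 0, ← hl 0]
    exact (S 0).alg.zi.map _
  · intro h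
    obtain ⟨k, hk, h1⟩ := isOfFinOrder_iff_pow_eq_one.1 h
    obtain ⟨n, hn⟩ := (he (z ^ k) 1 (by rw [map_pow, h1, map_one])).exists
    exact (S n).alg.zinf (isOfFinOrder_iff_pow_eq_one.2 ⟨k, hk, by rw [← map_pow, hn, map_one]⟩)
  · intro h
    obtain ⟨n, hn⟩ := (he (y * i) (i * y) (by rw [map_mul, map_mul, h.eq])).exists
    rw [map_mul, map_mul] at hn
    exact (S n).alg.yi hn
  · intro x hx hx1
    obtain ⟨x, rfl⟩ := hψ x
    obtain ⟨n, hn⟩ := (he (x * x) 1 (by rw [map_mul, hx, map_one])).exists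
    rw [map_mul, map_one] at hn
    obtain ⟨t, ht⟩ := (S n).alg.conj _ hn (fun h => hx1 (by rw [← hl n, h, map_one]))
    exact ⟨l n t, by rw [← hl n, ← hl n, ht, map_mul, map_mul, map_inv]⟩
  · intro H hH
    let σ : G → G₀ := Function.surjInv hψ
    have hσ : ∀ g, ψ (σ g) = g := Function.surjInv_eq hψ
    have hev : ∀ᶠ n in Filter.atTop, ∀ p : H × H,
        (S n).φ (σ (p.1 * p.2 : H)) = (S n).φ (σ p.1 * σ p.2) :=
      Filter.eventually_all.2 fun p => he _ _ (by rw [map_mul, hσ, hσ, hσ]; rfl)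
    obtain ⟨n, hn⟩ := hev.exists
    let f : H →* (S n).G := MonoidHom.mk' (fun h => (S n).φ (σ h)) fun a b => by
      rw [← map_mul]; exact hn (a, b)
    have hf : ∀ h : H, l n (f h) = h := fun h => (hl n _).trans (hσ _)
    obtain ⟨ρ, j, hodd, hρ⟩ := (S n).alg.dih f.range
      (Finite.of_surjective f.rangeRestrict f.rangeRestrict_surjective)
    have hz : ∀ w, w ∈ Subgroup.zpowers ρ → l n w ∈ Subgroup.zpowers (l n ρ) := by
      rintro _ ⟨k, rfl⟩
      exact ⟨k, (map_zpow _ _ _).symm⟩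
    refine ⟨l n ρ, l n j, hodd.of_dvd_nat (orderOf_map_dvd _ _), fun h hh => ?_⟩
    rcases hρ (f ⟨h, hh⟩) ⟨_, rfl⟩ with h1 | ⟨h1, h2, h3⟩
    · left
      have := hz _ h1
      rwa [hf] at this
    · right
      refine ⟨?_, by rw [← map_mul, h2, map_one], by
        rw [← map_inv, ← map_mul, ← map_mul, h3, map_inv]⟩
      have := hz _ h1
      rwa [map_mul, hf] at this
  · intro r a hodd hr hc
    obtain ⟨r, rfl⟩ := hψ r
    obtain ⟨a, rfl⟩ := hψ a
    obtain ⟨n, h1, h2⟩ := ((he (r ^ orderOf (ψ r)) 1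
      (by rw [map_pow, pow_orderOf_eq_one, map_one])).and
      (he (a * r) (r * a) (by rw [map_mul, map_mul, hc.eq]))).exists
    rw [map_pow, map_one] at h1
    rw [map_mul, map_mul] at h2
    have := (S n).alg.cen ((S n).φ r) ((S n).φ a) (hodd.of_dvd_nat (orderOf_dvd_of_pow_eq_one h1))
      (fun h => hr (by rw [← hl n, h, map_one])) h2
    rw [← hl n]
    exact (l n).isOfFinOrder this

end lim

theorem thm_lim (hb : H535Z.HG.S_base) (ht : S_task) : S_lim := by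
  obtain ⟨G₀, _, i, z, y, hH, hA⟩ := hb
  have := countable_of_hyp hH
  obtain ⟨τ, hτ⟩ := exists_surjective_nat (G₀ ⊕ G₀ × G₀ × ℕ)
  obtain ⟨S, hS, hD⟩ := exists_tower (i := i) (z := z) (y := y) ht
    ⟨G₀, MonoidHom.id G₀, Function.surjective_id, hH, hA⟩ τ
  obtain ⟨G, _, ψ, l, hψ, hl, he⟩ := limit S hS
  have halg := alg_limit S ψ l hψ hl he
  refine ⟨G, inferInstance, ψ i, ψ z, ψ y, halg, fun t => ?_, ?_⟩
  · obtain ⟨t, rfl⟩ := hψ t
    obtain ⟨n, hn⟩ := hτ (Sum.inl t)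
    have h1 := hD n
    rw [hn] at h1
    have h2 := (l (n + 1)).isOfFinOrder h1
    rw [hl] at h2
    simpa only [map_mul, map_inv] using h2
  · have : Nontrivial G := ⟨⟨ψ i, 1, halg.ne⟩⟩
    refine ⟨fun N hN => ?_⟩
    by_cases hbot : N = ⊥
    · exact Or.inl hbot
    right
    obtain ⟨⟨g, hg⟩, hg1⟩ := Subgroup.ne_bot_iff_exists_ne_one.1 hbot
    have hg1' : g ≠ 1 := fun h => hg1 (Subtype.ext h)
    obtain ⟨g, rfl⟩ := hψ g
    rw [eq_top_iff]
    intro a _
    obtain ⟨a, rfl⟩ := hψ a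
    have key : ∀ m : ℕ, ∃ n : ℕ, n.Coprime (m + 1) ∧ 0 < n ∧ ψ a ^ n ∈ N := by
      intro m
      obtain ⟨k, hk⟩ := hτ (Sum.inr (a, g, m))
      have h1 := hD k
      rw [hk] at h1
      rcases h1 with h1 | ⟨n, p1, p2, p3⟩
      · exact absurd (by rw [← hl (k + 1), h1, map_one]) hg1'
      · refine ⟨n, p1, p2, ?_⟩
        have hle : Subgroup.normalClosure ({(S (k + 1)).φ g} : Set (S (k + 1)).G) ≤
            N.comap (l (k + 1)) := by
          apply Subgroup.normalClosure_le_normal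
          rintro _ rfl
          show l (k + 1) _ ∈ N
          rwa [hl]
        have := hle p3
        rwa [Subgroup.mem_comap, map_pow, hl] at this
    obtain ⟨n₁, -, q1, q2⟩ := key 0
    obtain ⟨n₂, r1, -, r2⟩ := key (n₁ - 1)
    rw [Nat.sub_add_cancel q1] at r1
    have e1 : (QuotientGroup.mk' N (ψ a)) ^ n₁ = 1 := by
      rw [← map_pow]; exact (QuotientGroup.eq_one_iff _).2 q2
    have e2 : (QuotientGroup.mk' N (ψ a)) ^ n₂ = 1 := by
      rw [← map_pow]; exact (QuotientGroup.eq_one_iff _).2 r2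
    exact (QuotientGroup.eq_one_iff _).1 ((pow_eq_one_iff_of_coprime r1).1 ⟨e2, e1⟩)

end Pool.Agent.H158Z.Lim
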