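import Mathlib

/-!
A colouring of `[1, 2 ^ 2 ^ I]` with `6 ^ I` colours without monochromatic near progressions whose
step is a power of two.
-/

set_option autoImplicit false

namespace Pool.Agent.H158Z.NearAP

theorem two_pow_mod_six (m : ℕ) : 2 ^ (m + 1) % 6 = 2 ∨ 2 ^ (m + 1) % 6 = 4 := by
  induction m with
  | zero => left; rfl
  | succ m ih =>
    rw [pow_succ]
    omega

/-- One scale `q` of the colouring excludes differences within `q` of `q * 2 ^ (m + 1)`. -/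
theorem one_scale {q m a₁ a₂ b w : ℕ} (hq : 0 < q) (hw : w ≤ q)
    (h1 : b + q * 2 ^ (m + 1) ≤ a₁) (h1' : a₁ ≤ b + q * 2 ^ (m + 1) + w)
    (h2 : b + 2 * (q * 2 ^ (m + 1)) ≤ a₂) (h2' : a₂ ≤ b + 2 * (q * 2 ^ (m + 1)) + w) :
    a₁ / q % 6 ≠ a₂ / q % 6 := by
  have hD := two_pow_mod_six m
  generalize 2 ^ (m + 1) = D at *
  have e1 := Nat.div_add_mod a₁ q
  have e2 := Nat.div_add_mod a₂ q
  have l1 := Nat.mod_lt a₁ hq
  have l2 := Nat.mod_lt a₂ hq
  generalize a₁ / q = x at *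
  generalize a₂ / q = y at *
  generalize a₁ % q = r₁ at *
  generalize a₂ % q = r₂ at *
  have k1 : y < x + D + 2 := by
    refine lt_of_mul_lt_mul_left (a := q) ?_ hq.le
    have : q * (x + D + 2) = q * x + q * D + 2 * q := by ring
    omega
  have k2 : x + D < y + 2 := by
    refine lt_of_mul_lt_mul_left (a := q) ?_ hq.le
    have : q * (x + D) = q * x + q * D := by ring
    have : q * (y + 2) = q * y + 2 * q := by ring
    omega
  omega

/-- The colouring. -/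
def col (I a : ℕ) (i : Fin I) : Fin 6 :=
  ⟨a / 2 ^ (2 ^ I - 2 ^ (i.val + 1)) % 6, Nat.mod_lt _ (by norm_num)⟩

theorem no_mono {I j w a₁ a₂ b : ℕ} (hI : 1 ≤ I) (hw : w * 2 ^ 2 ^ I < (2 ^ j) ^ 2)
    (hn : a₂ ≤ 2 ^ 2 ^ I)
    (h1 : b + 2 ^ j ≤ a₁) (h1' : a₁ ≤ b + 2 ^ j + w)
    (h2 : b + 2 * 2 ^ j ≤ a₂) (h2' : a₂ ≤ b + 2 * 2 ^ j + w) : col I a₁ ≠ col I a₂ := by
  intro hc
  have hjL : j < 2 ^ I := by
    have h3 : 2 ^ (j + 1) ≤ 2 ^ 2 ^ I := by rw [pow_succ]; omega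
    exact (Nat.pow_le_pow_iff_right (by norm_num)).1 h3
  rcases Nat.eq_zero_or_pos j with rfl | hj
  · -- step one: use the finest scale
    have hw0 : w = 0 := by
      by_contra h
      have h3 : 1 ≤ w := Nat.one_le_iff_ne_zero.2 h
      have h4 : 1 ≤ 2 ^ 2 ^ I := Nat.one_le_two_pow
      have h5 : 1 * 1 ≤ w * 2 ^ 2 ^ I := Nat.mul_le_mul h3 h4
      simp at hw
      omega
    have h3 := congrArg Fin.val (congrFun hc ⟨I - 1, by omega⟩)
    simp only [col, Nat.sub_add_cancel hI, Nat.sub_self, pow_zero, Nat.div_one] at h3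
    simp only [pow_zero] at h1 h1' h2 h2'
    omega
  · set k := 2 ^ I - j with hk
    have hk1 : 1 ≤ k := by omega
    have hk2 : k < 2 ^ I := by omega
    have l1 : 2 ^ Nat.log 2 k ≤ k := Nat.pow_log_le_self 2 (by omega)
    have l2 : k < 2 ^ (Nat.log 2 k + 1) := Nat.lt_pow_succ_log_self (by norm_num) k
    have l3 : Nat.log 2 k < I := (Nat.pow_lt_pow_iff_right (by norm_num)).1 (l1.trans_lt hk2)
    have l4 : 2 ^ (Nat.log 2 k + 1) ≤ 2 ^ I := Nat.pow_le_pow_right (by norm_num) l3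
    have l5 : 2 ^ (Nat.log 2 k + 1) = 2 * 2 ^ Nat.log 2 k := by rw [pow_succ]; ring
    have h3 := congrArg Fin.val (congrFun hc ⟨Nat.log 2 k, l3⟩)
    simp only [col] at h3
    set s := 2 ^ I - 2 ^ (Nat.log 2 k + 1) with hs
    obtain ⟨m, hm⟩ : ∃ m, j = s + (m + 1) := ⟨j - s - 1, by omega⟩
    have hd : 2 ^ j = 2 ^ s * 2 ^ (m + 1) := by rw [hm, pow_add]
    have hws : w ≤ 2 ^ s := by
      have h4 : (2 ^ j) ^ 2 ≤ 2 ^ s * 2 ^ 2 ^ I := by
        rw [← pow_mul, ← pow_add]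
        exact Nat.pow_le_pow_right (by norm_num) (by omega)
      exact (lt_of_mul_lt_mul_right (hw.trans_le h4) (Nat.zero_le _)).le
    rw [hd] at h1 h1' h2 h2'
    exact one_scale (Nat.two_pow_pos s) hws h1 h1' h2 h2' h3

theorem exists_class (I : ℕ) : ∃ c : Fin I → Fin 6,
    2 ^ 2 ^ I ≤ 6 ^ I * ((Finset.Icc 1 (2 ^ 2 ^ I)).filter fun a => col I a = c).card := by
  by_contra h
  push Not at h
  have h1 := Finset.card_eq_sum_card_fiberwise (s := Finset.Icc 1 (2 ^ 2 ^ I))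
    (t := (Finset.univ : Finset (Fin I → Fin 6))) (f := col I) (fun _ _ => Finset.mem_univ _)
  have h2 : ∑ c : Fin I → Fin 6,
      6 ^ I * ((Finset.Icc 1 (2 ^ 2 ^ I)).filter fun a => col I a = c).card <
      ∑ _c : Fin I → Fin 6, 2 ^ 2 ^ I :=
    Finset.sum_lt_sum_of_nonempty Finset.univ_nonempty fun c _ => h c
  rw [← Finset.mul_sum, ← h1] at h2
  simp at h2

theorem growth {I : ℕ} (hI : 8 ≤ I) :
    (6 : ℝ) ^ I ≤ Real.log ((2 ^ 2 ^ I : ℕ) : ℝ) ^ Real.log (Real.log ((2 ^ 2 ^ I : ℕ) : ℝ)) := by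
  have hl2 : (0.69 : ℝ) < Real.log 2 := by linarith [Real.log_two_gt_d9]
  have hI' : (8 : ℝ) ≤ I := by exact_mod_cast hI
  have hL : Real.log ((2 ^ 2 ^ I : ℕ) : ℝ) = 2 ^ I * Real.log 2 := by
    push_cast
    rw [Real.log_pow]
    push_cast
    ring
  have hpos : 0 < Real.log ((2 ^ 2 ^ I : ℕ) : ℝ) := by rw [hL]; positivity
  have hx : (I : ℝ) / 2 ≤ Real.log (Real.log ((2 ^ 2 ^ I : ℕ) : ℝ)) := by
    have h1 : Real.log (2 ^ I / 2) ≤ Real.log (Real.log ((2 ^ 2 ^ I : ℕ) : ℝ)) := by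
      refine Real.log_le_log (by positivity) ?_
      rw [hL]
      have : (0 : ℝ) < 2 ^ I := by positivity
      nlinarith
    rw [Real.log_div (by positivity) (by norm_num), Real.log_pow] at h1
    nlinarith
  have h6 : Real.log 6 ≤ 2 := by
    rw [Real.log_le_iff_le_exp (by norm_num)]
    have h1 : Real.exp 2 = Real.exp 1 * Real.exp 1 := by rw [← Real.exp_add]; norm_num
    have h2 := Real.exp_one_gt_d9
    nlinarith
  rw [Real.rpow_def_of_pos hpos, ← Real.exp_log (x := 6 ^ I) (by positivity), Real.log_pow]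
  refine Real.exp_le_exp.2 ?_
  nlinarith

end Pool.Agent.H158Z.NearAP
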