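import Mathlib

set_option autoImplicit false

namespace Pool.Agent.H158Z.Skel

open MeasureTheory Set Measure
open scoped ENNReal NNReal

section comb

/-- Among many large events two overlap substantially. -/
theorem bonf {Ω : Type*} [MeasurableSpace Ω] (m : Measure Ω) (A : ℕ → Set Ω)
    (hA : ∀ i, MeasurableSet (A i)) (c η : ℝ≥0∞) (N : ℕ) (hc : ∀ i, i < N → c ≤ m (A i))
    (hη : ∀ i j, i < N → j < N → i ≠ j → m (A i ∩ A j) ≤ η) :
    ∀ n, n ≤ N → (n : ℝ≥0∞) * c ≤ m (⋃ i ∈ Finset.range n, A i) + (n : ℝ≥0∞) * n * η := by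
  intro n
  induction n with
  | zero => intro _; simp
  | succ n ih =>
    intro hn
    have ih' := ih (by omega)
    have hU : (⋃ i ∈ Finset.range (n + 1), A i) = (⋃ i ∈ Finset.range n, A i) ∪ A n := by
      rw [Finset.range_add_one, Finset.set_biUnion_insert, union_comm]
    have h1 := measure_union_add_inter (μ := m) (⋃ i ∈ Finset.range n, A i) (hA n)
    have h2 : m ((⋃ i ∈ Finset.range n, A i) ∩ A n) ≤ (n : ℝ≥0∞) * η := by
      rw [iUnion₂_inter]
      refine (measure_biUnion_finset_le _ _).trans ?_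
      calc ∑ p ∈ Finset.range n, m (A p ∩ A n) ≤ ∑ _p ∈ Finset.range n, η := by
            apply Finset.sum_le_sum
            intro i hi
            have := Finset.mem_range.1 hi
            exact hη i n (by omega) (by omega) (by omega)
        _ = (n : ℝ≥0∞) * η := by simp
    rw [hU]
    have h3 : c ≤ m (A n) := hc n (by omega)
    calc ((n + 1 : ℕ) : ℝ≥0∞) * c = (n : ℝ≥0∞) * c + c := by push_cast; ring
      _ ≤ (m (⋃ i ∈ Finset.range n, A i) + (n : ℝ≥0∞) * n * η) + m (A n) := add_le_add ih' h3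
      _ = (m (⋃ i ∈ Finset.range n, A i) + m (A n)) + (n : ℝ≥0∞) * n * η := by ring
      _ = (m ((⋃ i ∈ Finset.range n, A i) ∪ A n) + m ((⋃ i ∈ Finset.range n, A i) ∩ A n))
            + (n : ℝ≥0∞) * n * η := by rw [h1]
      _ ≤ (m ((⋃ i ∈ Finset.range n, A i) ∪ A n) + (n : ℝ≥0∞) * η) + (n : ℝ≥0∞) * n * η := by
            gcongr
      _ ≤ m ((⋃ i ∈ Finset.range n, A i) ∪ A n)
            + ((n + 1 : ℕ) : ℝ≥0∞) * ((n + 1 : ℕ) : ℝ≥0∞) * η := by
            rw [add_assoc]
            gcongr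
            push_cast
            calc (n : ℝ≥0∞) * η + (n : ℝ≥0∞) * n * η = ((n : ℝ≥0∞) + n * n) * η := by ring
              _ ≤ (((n : ℝ≥0∞) + n * n) + (n + 1)) * η := mul_le_mul_left le_self_add _
              _ = ((n : ℝ≥0∞) + 1) * (n + 1) * η := by ring

theorem overlap (c : ℝ≥0) (hc : 0 < c) : ∃ N : ℕ, 0 < N ∧ ∃ η : ℝ≥0, 0 < η ∧
    ∀ {Ω : Type} [MeasurableSpace Ω] (m : Measure Ω) (A : ℕ → Set Ω) (W : Set Ω),
      (∀ i, MeasurableSet (A i)) → (∀ i, i < N → A i ⊆ W) → m W ≤ 1 →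
      (∀ i, i < N → (c : ℝ≥0∞) ≤ m (A i)) →
      ∃ i j, i < N ∧ j < N ∧ i ≠ j ∧ (η : ℝ≥0∞) ≤ m (A i ∩ A j) := by
  obtain ⟨N, hN⟩ := exists_nat_gt (2 / c)
  have hN0 : 0 < N := by
    have : (0 : ℝ≥0) < N := lt_of_le_of_lt (by positivity) hN
    exact_mod_cast this
  have hNpos : (0 : ℝ≥0) < N := by exact_mod_cast hN0
  refine ⟨N, hN0, 1 / ((N : ℝ≥0) * N), by positivity, ?_⟩
  intro Ω _ m A W hA hW hW1 hcA
  by_contra hcon
  push Not at hcon
  have h := bonf m A hA c ((1 / ((N : ℝ≥0) * N) : ℝ≥0) : ℝ≥0∞) N hcA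
    (fun i j hi hj hij => (hcon i j hi hj hij).le) N le_rfl
  have hU : m (⋃ i ∈ Finset.range N, A i) ≤ 1 := by
    refine le_trans (measure_mono ?_) hW1
    intro z hz
    simp only [mem_iUnion] at hz
    obtain ⟨i, hi, hz⟩ := hz
    exact hW i (Finset.mem_range.1 hi) hz
  have h2 : ((N : ℝ≥0∞) * c) ≤ 1 + (N : ℝ≥0∞) * N * ((1 / ((N : ℝ≥0) * N) : ℝ≥0) : ℝ≥0∞) :=
    h.trans (by gcongr)
  have h3 : (N : ℝ≥0) * c ≤ 1 + (N : ℝ≥0) * N * (1 / ((N : ℝ≥0) * N)) := by
    exact_mod_cast h2
  have h4 : (N : ℝ≥0) * N * (1 / ((N : ℝ≥0) * N)) = 1 := by field_simp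
  rw [h4] at h3
  rw [div_lt_iff₀ hc] at hN
  have : (1 : ℝ≥0) + 1 = 2 := by norm_num
  rw [this] at h3
  exact absurd hN (not_lt.2 h3)

end comb

section resample

variable {ι : Type} [Fintype ι] [DecidableEq ι] {E : Type} [MeasurableSpace E]

omit [Fintype ι] in
theorem meas_res (ν : Measure E) [SFinite ν] {f : (ι → E) → ℝ≥0∞} (hf : Measurable f) (i : ι) :
    Measurable (fun z : ι → E => ∫⁻ v, f (Function.update z i v) ∂ν) := by
  apply Measurable.lintegral_prod_right' (f := fun p : (ι → E) × E => f (Function.update p.1 i p.2))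
  exact hf.comp measurable_update'

theorem resample (ν : Measure E) [IsProbabilityMeasure ν] {f : (ι → E) → ℝ≥0∞}
    (hf : Measurable f) (i : ι) :
    ∫⁻ z, f z ∂(Measure.pi fun _ : ι => ν) =
      ∫⁻ z, (∫⁻ v, f (Function.update z i v) ∂ν) ∂(Measure.pi fun _ : ι => ν) := by
  apply lintegral_eq_of_lmarginal_eq {i} hf (meas_res ν hf i)
  rw [lmarginal_singleton, lmarginal_singleton]
  ext z
  simp

/-- Independent duplication of a coordinate. -/
theorem twin (ν : Measure E) [IsProbabilityMeasure ν] (x y : ι) (hxy : x ≠ y)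
    (B : Set (ι → E)) (hB : MeasurableSet B) (c : ℝ≥0) (hc : (c : ℝ≥0∞) ≤ (Measure.pi fun _ : ι => ν) B) :
    ∃ B' : Set (ι → E), MeasurableSet B' ∧
      ((c * c / 2 : ℝ≥0) : ℝ≥0∞) ≤ (Measure.pi fun _ : ι => ν) B' ∧
      ∀ z ∈ B', (∃ v, Function.update z y v ∈ B) ∧
        (∃ v, Function.update (z ∘ Equiv.swap x y) y v ∈ B) := by
  set m := (Measure.pi fun _ : ι => ν) with hm
  let G : (ι → E) → ℝ≥0∞ := fun z => ∫⁻ v, B.indicator 1 (Function.update z y v) ∂ν
  have hind : Measurable (B.indicator (1 : (ι → E) → ℝ≥0∞)) := measurable_one.indicator hB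
  have hG : Measurable G := meas_res ν hind y
  let B0 : Set (ι → E) := {z | 0 < G z}
  have hB0 : MeasurableSet B0 := measurableSet_lt measurable_const hG
  have hGupd : ∀ z v, G (Function.update z y v) = G z := by
    intro z v
    simp only [G, Function.update_idem]
  have hB0upd : ∀ z v, Function.update z y v ∈ B0 ↔ z ∈ B0 := by
    intro z v
    simp only [B0, mem_ofPred_eq, hGupd]
  have hB0ex : ∀ z ∈ B0, ∃ v, Function.update z y v ∈ B := by
    intro z hz
    by_contra hcon
    push Not at hcon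
    have : G z = 0 := by
      simp only [G]
      rw [lintegral_eq_zero_iff' (by
        exact (hind.comp (measurable_update z)).aemeasurable)]
      filter_upwards with v
      simp [hcon v]
    have hz' : 0 < G z := hz
    rw [this] at hz'
    exact lt_irrefl _ hz'
  have hG1 : ∀ z, G z ≤ B0.indicator 1 z := by
    intro z
    by_cases hz : z ∈ B0
    · rw [indicator_of_mem hz]
      calc G z ≤ ∫⁻ _v, 1 ∂ν := by
            apply lintegral_mono
            intro v
            exact indicator_le_self' (by simp) _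
        _ = 1 := by simp
    · have : G z = 0 := by simpa [B0] using hz
      rw [this]; exact bot_le
  have hcB0 : (c : ℝ≥0∞) ≤ m B0 := by
    calc (c : ℝ≥0∞) ≤ m B := hc
      _ = ∫⁻ z, B.indicator 1 z ∂m := (lintegral_indicator_one hB).symm
      _ = ∫⁻ z, G z ∂m := resample ν hind y
      _ ≤ ∫⁻ z, B0.indicator 1 z ∂m := lintegral_mono hG1
      _ = m B0 := lintegral_indicator_one hB0
  have hind0 : Measurable (B0.indicator (1 : (ι → E) → ℝ≥0∞)) := measurable_one.indicator hB0
  let g : (ι → E) → ℝ≥0∞ := fun z => ∫⁻ v, B0.indicator 1 (Function.update z x v) ∂ν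
  have hg : Measurable g := meas_res ν hind0 x
  have hgupd : ∀ z v, g (Function.update z x v) = g z := by
    intro z v
    simp only [g, Function.update_idem]
  have hsw : Measurable (fun z : ι → E => z ∘ Equiv.swap x y) := by
    apply measurable_pi_lambda
    intro i
    exact measurable_pi_apply _
  let B' : Set (ι → E) := B0 ∩ (fun z : ι → E => z ∘ Equiv.swap x y) ⁻¹' B0
  have hB' : MeasurableSet B' := hB0.inter (hsw hB0)
  refine ⟨B', hB', ?_, fun z hz => ⟨hB0ex z hz.1, hB0ex _ hz.2⟩⟩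
  have hind' : Measurable (B'.indicator (1 : (ι → E) → ℝ≥0∞)) := measurable_one.indicator hB'
  have key : ∀ z v, B'.indicator (1 : (ι → E) → ℝ≥0∞) (Function.update z y v) =
      B0.indicator 1 z * B0.indicator 1 (Function.update z x v) := by
    intro z v
    have e1 : (Function.update z y v) ∘ Equiv.swap x y =
        Function.update (Function.update z x v) y (z x) := by
      ext i
      by_cases h1 : i = x
      · subst h1; simp [Function.update_of_ne hxy]
      · by_cases h2 : i = y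
        · subst h2; simp [Function.update_of_ne hxy]
        · simp [Equiv.swap_apply_of_ne_of_ne h1 h2, Function.update_of_ne h1,
            Function.update_of_ne h2]
    have e2 : Function.update z y v ∈ B' ↔ (z ∈ B0 ∧ Function.update z x v ∈ B0) := by
      simp only [B', mem_inter_iff, mem_preimage, e1, hB0upd]
    by_cases h1 : z ∈ B0
    · by_cases h2 : Function.update z x v ∈ B0
      · rw [indicator_of_mem (e2.2 ⟨h1, h2⟩), indicator_of_mem h1, indicator_of_mem h2]; simp
      · rw [indicator_of_notMem (fun h => h2 (e2.1 h).2), indicator_of_notMem h2]; simp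
    · rw [indicator_of_notMem (fun h => h1 (e2.1 h).1), indicator_of_notMem h1]; simp
  have e3 : m B' = ∫⁻ z, g z * g z ∂m := by
    calc m B' = ∫⁻ z, B'.indicator 1 z ∂m := (lintegral_indicator_one hB').symm
      _ = ∫⁻ z, (∫⁻ v, B'.indicator 1 (Function.update z y v) ∂ν) ∂m := resample ν hind' y
      _ = ∫⁻ z, B0.indicator 1 z * g z ∂m := by
          congr 1
          ext z
          simp only [key, g]
          exact lintegral_const_mul _ (hind0.comp (measurable_update z))
      _ = ∫⁻ z, (∫⁻ v, B0.indicator 1 (Function.update z x v) * g (Function.update z x v) ∂ν) ∂m :=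
          resample ν (hind0.mul hg) x
      _ = ∫⁻ z, g z * g z ∂m := by
          congr 1
          ext z
          simp only [hgupd]
          exact lintegral_mul_const _ (hind0.comp (measurable_update z))
  have e4 : m B0 = ∫⁻ z, g z ∂m := by
    rw [← lintegral_indicator_one hB0]
    exact resample ν hind0 x
  have hpt : ∀ z, (c : ℝ≥0∞) * g z ≤ g z * g z + ((c * c / 2 : ℝ≥0) : ℝ≥0∞) := by
    intro z
    have hg1 : g z ≤ 1 := by
      calc g z ≤ ∫⁻ _v, 1 ∂ν := by
            apply lintegral_mono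
            intro v
            exact indicator_le_self' (by simp) _
        _ = 1 := by simp
    obtain ⟨t, ht⟩ : ∃ t : ℝ≥0, g z = t :=
      ⟨(g z).toNNReal, (ENNReal.coe_toNNReal (ne_top_of_le_ne_top ENNReal.one_ne_top hg1)).symm⟩
    rw [ht]
    have : c * t ≤ t * t + c * c / 2 := by
      have h1 : (c : ℝ) * t ≤ t * t + c * c / 2 := by
        nlinarith [sq_nonneg ((t : ℝ) - c / 2), sq_nonneg (c : ℝ)]
      exact_mod_cast h1
    exact_mod_cast this
  have e5 : (c : ℝ≥0∞) * c ≤ m B' + ((c * c / 2 : ℝ≥0) : ℝ≥0∞) := by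
    calc (c : ℝ≥0∞) * c ≤ c * ∫⁻ z, g z ∂m := by rw [← e4]; gcongr
      _ = ∫⁻ z, c * g z ∂m := (lintegral_const_mul _ hg).symm
      _ ≤ ∫⁻ z, (g z * g z + ((c * c / 2 : ℝ≥0) : ℝ≥0∞)) ∂m := lintegral_mono hpt
      _ = m B' + ((c * c / 2 : ℝ≥0) : ℝ≥0∞) := by
          rw [lintegral_add_right _ measurable_const, e3]
          simp
  have e6 : (c : ℝ≥0∞) * c = ((c * c / 2 : ℝ≥0) : ℝ≥0∞) + ((c * c / 2 : ℝ≥0) : ℝ≥0∞) := by
    rw [← ENNReal.coe_add, ← ENNReal.coe_mul]
    congr 1
    ring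
  rw [e6] at e5
  exact (ENNReal.add_le_add_iff_right ENNReal.coe_ne_top).1 e5

end resample

end Pool.Agent.H158Z.Skel
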