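import Pool.Agent.H158Z.Skel1

set_option autoImplicit false
set_option linter.unusedSectionVars false

namespace Pool.Agent.H158Z.Skel

open MeasureTheory Set Measure
open scoped ENNReal NNReal

variable {E : Type} [NormedAddCommGroup E] [NormedSpace ℝ E] [FiniteDimensional ℝ E]
  [MeasurableSpace E] [BorelSpace E] [SecondCountableTopology E] [LocallyCompactSpace E]
variable {ι : Type} [Fintype ι] [DecidableEq ι]

/-- All affine combinations of the points indexed by `e` with coefficients at most `r` lie in `S`. -/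
def Good (S : Set E) (r : ℝ) (z : ι → E) (e : Finset ι) : Prop :=
  ∀ c : ι → ℝ, (∀ i, i ∉ e → c i = 0) → ∑ i, c i = 1 → (∀ i, |c i| ≤ r) → ∑ i, c i • z i ∈ S

theorem Good.congr {S : Set E} {r : ℝ} {z w : ι → E} {e : Finset ι} (h : Good S r z e)
    (hzw : ∀ i ∈ e, w i = z i) : Good S r w e := by
  intro c hc h1 hr
  have : ∑ i, c i • w i = ∑ i, c i • z i := by
    apply Finset.sum_congr rfl
    intro i _
    by_cases hi : i ∈ e
    · rw [hzw i hi]
    · rw [hc i hi]; simp
  rw [this]
  exact h c hc h1 hr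

theorem Good.mono {S : Set E} {r r' : ℝ} {z : ι → E} {e : Finset ι} (h : Good S r z e)
    (hr : r' ≤ r) : Good S r' z e :=
  fun c hc h1 h2 => h c hc h1 fun i => (h2 i).trans hr

theorem Good.perm {S : Set E} {r : ℝ} {z : ι → E} {e : Finset ι} (σ : Equiv.Perm ι)
    (h : Good S r z (e.map σ.toEmbedding)) : Good S r (z ∘ σ) e := by
  intro c hc h1 hr
  have := h (c ∘ σ.symm) (by
    intro i hi
    apply hc
    intro hmem
    apply hi
    rw [Finset.mem_map]
    exact ⟨σ.symm i, hmem, by simp⟩) (by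
    rw [← h1]
    exact Equiv.sum_comp σ.symm c) (fun i => hr _)
  have e1 : ∑ i, c i • (z ∘ σ) i = ∑ i, (c ∘ σ.symm) i • z i := by
    rw [← Equiv.sum_comp σ (fun i => (c ∘ σ.symm) i • z i)]
    simp
  rw [e1]
  exact this

/-- A positive proportion of tuples is good on every edge of `H`. -/
def Dens (P : Measure E → Set E → Prop) (H : Set (Finset ι)) : Prop :=
  ∀ r : ℝ, 1 ≤ r → ∃ c : ℝ≥0, 0 < c ∧ ∀ (μ : Measure E) [IsAddHaarMeasure μ] (S : Set E),
    P μ S → MeasurableSet S → μ S = 1 →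
      ∃ B : Set (ι → E), MeasurableSet B ∧ (∀ z ∈ B, (∀ i, z i ∈ S) ∧ ∀ e ∈ H, Good S r z e) ∧
        (c : ℝ≥0∞) ≤ (Measure.pi fun _ : ι => μ) B

theorem Dens.mono {P : Measure E → Set E → Prop} {H H' : Set (Finset ι)} (h : Dens P H)
    (hH : H' ⊆ H) : Dens P H' := by
  intro r hr
  obtain ⟨c, hc, h2⟩ := h r hr
  refine ⟨c, hc, fun μ _ S hP hS h1 => ?_⟩
  obtain ⟨B, hB, h3, h4⟩ := h2 μ S hP hS h1
  exact ⟨B, hB, fun z hz => ⟨(h3 z hz).1, fun e he => (h3 z hz).2 e (hH he)⟩, h4⟩

theorem pi_restrict_apply (μ : Measure E) [SigmaFinite μ] (S : Set E) (hS : MeasurableSet S)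
    (B : Set (ι → E)) :
    (Measure.pi fun _ : ι => μ.restrict S) B =
      (Measure.pi fun _ : ι => μ) (B ∩ univ.pi fun _ => S) := by
  rw [← Measure.restrict_pi_pi, Measure.restrict_apply' (MeasurableSet.univ_pi fun _ => hS)]

theorem dens_twin {P : Measure E → Set E → Prop} {H : Set (Finset ι)} (h : Dens P H)
    (x y : ι) (hxy : x ≠ y) (hy : ∀ e ∈ H, y ∉ e) :
    Dens P {e | e ∈ H ∨ e.map (Equiv.swap x y).toEmbedding ∈ H} := by
  intro r hr
  obtain ⟨c, hc, h2⟩ := h r hr
  refine ⟨c * c / 2, by positivity, fun μ _ S hP hS h1 => ?_⟩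
  obtain ⟨B, hB, h3, h4⟩ := h2 μ S hP hS h1
  have hprob : IsProbabilityMeasure (μ.restrict S) := ⟨by simp [h1]⟩
  have hBS : B ∩ (univ.pi fun _ : ι => S) = B :=
    inter_eq_left.2 fun z hz i _ => (h3 z hz).1 i
  obtain ⟨B', hB', h5, h6⟩ := twin (μ.restrict S) x y hxy B hB c
    (by rw [pi_restrict_apply μ S hS, hBS]; exact h4)
  refine ⟨B' ∩ univ.pi fun _ => S, hB'.inter (MeasurableSet.univ_pi fun _ => hS), ?_, ?_⟩
  · intro z hz
    refine ⟨fun i => hz.2 i (mem_univ _), ?_⟩
    obtain ⟨⟨v, hv⟩, ⟨v', hv'⟩⟩ := h6 z hz.1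
    rintro e (he | he)
    · refine ((h3 _ hv).2 e he).congr ?_
      intro i hi
      have : i ≠ y := fun h => hy e he (h ▸ hi)
      rw [Function.update_of_ne this]
    · have g1 : Good S r (z ∘ Equiv.swap x y) (e.map (Equiv.swap x y).toEmbedding) := by
        refine ((h3 _ hv').2 _ he).congr ?_
        intro i hi
        have : i ≠ y := fun h => hy _ he (h ▸ hi)
        rw [Function.update_of_ne this]
      have g2 := g1.perm (Equiv.swap x y)
      refine g2.congr ?_
      intro i _
      simp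
  · rw [← pi_restrict_apply μ S hS]; exact h5

/-- Move the points `x` and `y` along the line through them. -/
def slide (x y : ι) (a b : ℝ) : (ι → E) →ₗ[ℝ] (ι → E) where
  toFun z := fun i => if i = x then z x + a • (z y - z x) else
    if i = y then z x + b • (z y - z x) else z i
  map_add' z w := by
    ext i
    by_cases h1 : i = x
    · simp only [h1, if_true, Pi.add_apply]; module
    · by_cases h2 : i = y
      · subst h2; simp only [h1, if_false, if_true, Pi.add_apply]; module
      · simp only [h1, h2, if_false, Pi.add_apply]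
  map_smul' t z := by
    ext i
    by_cases h1 : i = x
    · simp only [h1, if_true, Pi.smul_apply, RingHom.id_apply]; module
    · by_cases h2 : i = y
      · subst h2; simp only [h1, if_false, if_true, Pi.smul_apply, RingHom.id_apply]; module
      · simp only [h1, h2, if_false, Pi.smul_apply, RingHom.id_apply]

theorem slide_x (x y : ι) (a b : ℝ) (z : ι → E) : slide x y a b z x = z x + a • (z y - z x) := by
  simp [slide]

theorem slide_y {x y : ι} (hxy : x ≠ y) (a b : ℝ) (z : ι → E) :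
    slide x y a b z y = z x + b • (z y - z x) := by
  simp [slide, hxy.symm]

theorem slide_o {x y i : ι} (h1 : i ≠ x) (h2 : i ≠ y) (a b : ℝ) (z : ι → E) :
    slide x y a b z i = z i := by
  simp [slide, h1, h2]

theorem slide_comp {x y : ι} (hxy : x ≠ y) (a b a' b' : ℝ) :
    (slide x y a' b' : (ι → E) →ₗ[ℝ] (ι → E)) ∘ₗ slide x y a b =
      slide x y (a + a' * (b - a)) (a + b' * (b - a)) := by
  apply LinearMap.ext
  intro z
  ext i
  rw [LinearMap.comp_apply]
  by_cases h1 : i = x
  · subst h1; rw [slide_x, slide_x, slide_x, slide_y hxy]; module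
  · by_cases h2 : i = y
    · subst h2; rw [slide_y hxy, slide_y hxy, slide_x, slide_y hxy]; module
    · rw [slide_o h1 h2, slide_o h1 h2, slide_o h1 h2]

theorem slide_id {x y : ι} (hxy : x ≠ y) :
    (slide x y 0 1 : (ι → E) →ₗ[ℝ] (ι → E)) = LinearMap.id := by
  apply LinearMap.ext
  intro z
  ext i
  by_cases h1 : i = x
  · subst h1; rw [slide_x]; simp
  · by_cases h2 : i = y
    · subst h2; rw [slide_y hxy]; simp
    · rw [slide_o h1 h2]; simp

theorem slide_det_ne {x y : ι} (hxy : x ≠ y) {a b : ℝ} (hab : a ≠ b) :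
    LinearMap.det (slide x y a b : (ι → E) →ₗ[ℝ] (ι → E)) ≠ 0 := by
  have hba : b - a ≠ 0 := sub_ne_zero.2 hab.symm
  have h := slide_comp (E := E) hxy a b (-a / (b - a)) ((1 - a) / (b - a))
  have e1 : a + -a / (b - a) * (b - a) = 0 := by field_simp; ring
  have e2 : a + (1 - a) / (b - a) * (b - a) = 1 := by field_simp; ring
  rw [e1, e2, slide_id hxy] at h
  have := congrArg LinearMap.det h
  rw [LinearMap.det_comp, LinearMap.det_id] at this
  intro h0
  rw [h0, mul_zero] at this
  exact zero_ne_one this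

theorem slide_det_abs {x y : ι} (hxy : x ≠ y) (t : ℝ) :
    |LinearMap.det (slide x y t (1 + t) : (ι → E) →ₗ[ℝ] (ι → E))| = 1 := by
  have h1 := slide_comp (E := E) hxy t (1 + t) (-t) (1 + -t)
  have e1 : t + -t * (1 + t - t) = 0 := by ring
  have e2 : t + (1 + -t) * (1 + t - t) = 1 := by ring
  rw [e1, e2, slide_id hxy] at h1
  have h2 := slide_comp (E := E) hxy 1 0 1 0
  have e3 : (1 : ℝ) + 1 * (0 - 1) = 0 := by ring
  have e4 : (1 : ℝ) + 0 * (0 - 1) = 1 := by ring
  rw [e3, e4, slide_id hxy] at h2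
  have h3 := slide_comp (E := E) hxy 1 0 t (1 + t)
  have h4 := slide_comp (E := E) hxy (1 + t * (0 - 1)) (1 + (1 + t) * (0 - 1)) 1 0
  have e5 : 1 + t * (0 - 1) + 1 * (1 + (1 + t) * (0 - 1) - (1 + t * (0 - 1))) = -t := by ring
  have e6 : 1 + t * (0 - 1) + 0 * (1 + (1 + t) * (0 - 1) - (1 + t * (0 - 1))) = 1 + -t := by ring
  rw [e5, e6, ← h3] at h4
  have d1 := congrArg LinearMap.det h1
  have d2 := congrArg LinearMap.det h2
  have d4 := congrArg LinearMap.det h4
  simp only [LinearMap.det_comp, LinearMap.det_id] at d1 d2 d4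
  set p := LinearMap.det (slide x y t (1 + t) : (ι → E) →ₗ[ℝ] (ι → E))
  set q := LinearMap.det (slide x y (-t) (1 + -t) : (ι → E) →ₗ[ℝ] (ι → E))
  set s := LinearMap.det (slide x y 1 0 : (ι → E) →ₗ[ℝ] (ι → E))
  have hpq : q = p := by
    rw [← d4]
    calc s * (p * s) = (s * s) * p := by ring
      _ = p := by rw [d2, one_mul]
  rw [hpq] at d1
  have : |p| * |p| = 1 := by rw [← abs_mul, d1, abs_one]
  nlinarith [abs_nonneg p]

theorem good_slide {S : Set E} {r : ℝ} (hr : 0 ≤ r) {w : ι → E} {e : Finset ι} {x y : ι}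
    (hxy : x ≠ y) (hx : x ∈ e) (hy : y ∈ e) (h : Good S (3 * r) w e) (a b : ℝ) (ha : |a| ≤ 1)
    (hb : |b| ≤ 1) (hab : a = 0 ∨ b = 0) : Good S r (slide x y a b w) e := by
  intro c hc h1 hcr
  let c' : ι → ℝ := fun i => if i = x then c x * (1 - a) + c y * (1 - b) else
    if i = y then c x * a + c y * b else c i
  have hsum : ∀ {M : Type} [AddCommMonoid M] (f g : ι → M), f x + f y = g x + g y →
      (∀ i, i ≠ x → i ≠ y → f i = g i) → ∑ i, f i = ∑ i, g i := by
    intro M _ f g h1 h2
    have hyx : y ∈ (Finset.univ : Finset ι).erase x :=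
      Finset.mem_erase.2 ⟨hxy.symm, Finset.mem_univ _⟩
    rw [← Finset.add_sum_erase _ f (Finset.mem_univ x), ← Finset.add_sum_erase _ f hyx,
      ← Finset.add_sum_erase _ g (Finset.mem_univ x), ← Finset.add_sum_erase _ g hyx,
      ← add_assoc, ← add_assoc, h1]
    congr 1
    apply Finset.sum_congr rfl
    intro i hi
    simp only [Finset.mem_erase] at hi
    exact h2 i hi.2.1 hi.1
  have cx : c' x = c x * (1 - a) + c y * (1 - b) := by simp [c']
  have cy : c' y = c x * a + c y * b := by simp [c', hxy.symm]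
  have co : ∀ i, i ≠ x → i ≠ y → c' i = c i := by intro i h1 h2; simp [c', h1, h2]
  have e1 : ∑ i, c i • slide x y a b w i = ∑ i, c' i • w i := by
    apply hsum
    · rw [slide_x, slide_y hxy, cx, cy]; module
    · intro i h1 h2; rw [slide_o h1 h2, co i h1 h2]
  rw [e1]
  have hx' := abs_le.1 (hcr x)
  have hy' := abs_le.1 (hcr y)
  have ha' := abs_le.1 ha
  have hb' := abs_le.1 hb
  apply h c'
  · intro i hi
    have h1 : i ≠ x := fun h => hi (h ▸ hx)
    have h2 : i ≠ y := fun h => hi (h ▸ hy)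
    rw [co i h1 h2, hc i hi]
  · rw [← h1]
    apply hsum
    · rw [cx, cy]; ring
    · exact co
  · intro i
    by_cases h1 : i = x
    · rw [h1, cx, abs_le]
      rcases hab with h0 | h0 <;> subst h0 <;> constructor <;> nlinarith
    · by_cases h2 : i = y
      · rw [h2, cy, abs_le]
        rcases hab with h0 | h0 <;> subst h0 <;> constructor <;> nlinarith
      · rw [co i h1 h2]; linarith [hcr i]

end Pool.Agent.H158Z.Skel
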