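import Pool.Agent.H158Z.Skel2

set_option autoImplicit false
set_option linter.unusedSectionVars false

namespace Pool.Agent.H158Z.Skel

open MeasureTheory Set Measure
open scoped ENNReal NNReal

variable {E : Type} [NormedAddCommGroup E] [NormedSpace ℝ E] [FiniteDimensional ℝ E]
  [MeasurableSpace E] [BorelSpace E] [SecondCountableTopology E] [LocallyCompactSpace E]
variable {ι : Type} [Fintype ι] [DecidableEq ι]

theorem good_two {S : Set E} {R : ℝ} {w : ι → E} {e : Finset ι} {x y : ι} (hxy : x ≠ y)
    (hx : x ∈ e) (hy : y ∈ e) (h : Good S R w e) (a b : ℝ) (hab : a + b = 1) (ha : |a| ≤ R)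
    (hb : |b| ≤ R) : a • w x + b • w y ∈ S := by
  have := h (Pi.single x a + Pi.single y b) (by
    intro i hi
    have h1 : i ≠ x := fun h => hi (h ▸ hx)
    have h2 : i ≠ y := fun h => hi (h ▸ hy)
    simp [Pi.single_eq_of_ne h1, Pi.single_eq_of_ne h2]) (by
    simp [Finset.sum_add_distrib, hab]) (by
    intro i
    by_cases h1 : i = x
    · subst h1; simpa [Pi.single_eq_of_ne hxy] using ha
    · by_cases h2 : i = y
      · subst h2; simpa [Pi.single_eq_of_ne h1] using hb
      · simp only [Pi.add_apply, Pi.single_eq_of_ne h1, Pi.single_eq_of_ne h2, add_zero, abs_zero]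
        exact (abs_nonneg a).trans ha)
  simpa [add_smul, Finset.sum_add_distrib, Pi.single_apply] using this

theorem exists_pos_le {α : Type} (s : Finset α) (f : α → ℝ) (hf : ∀ a ∈ s, 0 < f a) :
    ∃ κ : ℝ≥0, 0 < κ ∧ ∀ a ∈ s, (κ : ℝ) ≤ f a := by
  classical
  induction s using Finset.induction_on with
  | empty => exact ⟨1, one_pos, by simp⟩
  | insert a s ha ih =>
    obtain ⟨κ, hκ, h⟩ := ih fun b hb => hf b (Finset.mem_insert_of_mem hb)
    have hfa := hf a (Finset.mem_insert_self _ _)
    refine ⟨min κ ⟨f a, hfa.le⟩, lt_min hκ hfa, ?_⟩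
    intro b hb
    rcases Finset.mem_insert.1 hb with rfl | hb
    · exact_mod_cast (min_le_right κ ⟨f b, hfa.le⟩)
    · exact le_trans (by exact_mod_cast (min_le_left κ ⟨f a, hfa.le⟩)) (h b hb)

theorem dens_slide {P : Measure E → Set E → Prop} {H : Set (Finset ι)} (h : Dens P H)
    (x y : ι) (hxy : x ≠ y) (h0 : ∃ e ∈ H, x ∈ e ∧ y ∈ e) (hy : ∀ e ∈ H, y ∈ e → x ∈ e) :
    Dens P {e | e ∈ H ∨ (x ∉ e ∧ e.map (Equiv.swap x y).toEmbedding ∈ H)} := by
  intro r hr
  obtain ⟨c, hc, h2⟩ := h (3 * r) (by linarith)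
  obtain ⟨N, hN, η, hη, hov⟩ := overlap c hc
  have hNr : (0 : ℝ) < N := by exact_mod_cast hN
  let τ : ℕ → ℝ := fun i => (i : ℝ) / N
  have hτ0 : ∀ i, 0 ≤ τ i := fun i => by positivity
  have hτ1 : ∀ i, i < N → τ i ≤ 1 := fun i hi => by
    rw [div_le_one hNr]; exact_mod_cast hi.le
  have hτne : ∀ i j, i ≠ j → τ j - τ i ≠ 0 := fun i j hij h => by
    have : τ j = τ i := sub_eq_zero.1 h
    simp only [τ] at this
    rw [div_left_inj' hNr.ne'] at this
    exact hij (by exact_mod_cast this.symm)
  let L : ℕ × ℕ → ((ι → E) →ₗ[ℝ] (ι → E)) := fun p =>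
    slide x y (-τ p.1 / (τ p.2 - τ p.1)) ((1 - τ p.1) / (τ p.2 - τ p.1))
  have hLdet : ∀ i j, i ≠ j → LinearMap.det (L (i, j)) ≠ 0 := by
    intro i j hij
    apply slide_det_ne hxy
    intro h
    have h1 := hτne i j hij
    field_simp at h
    linarith
  obtain ⟨κ, hκ, hκle⟩ := exists_pos_le
    ((Finset.range N ×ˢ Finset.range N).filter fun p => p.1 ≠ p.2)
    (fun p => |(LinearMap.det (L p))⁻¹|) (by
      intro p hp
      have := (Finset.mem_filter.1 hp).2
      exact abs_pos.2 (inv_ne_zero (hLdet p.1 p.2 this)))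
  refine ⟨κ * η, by positivity, fun μ _ S hP hS h1 => ?_⟩
  obtain ⟨B, hB, h3, h4⟩ := h2 μ S hP hS h1
  set m := (Measure.pi fun _ : ι => μ) with hm
  have hmeas : ∀ f : (ι → E) →ₗ[ℝ] (ι → E), Measurable f := fun f =>
    f.continuous_of_finiteDimensional.measurable
  let A : ℕ → Set (ι → E) := fun i => slide x y (τ i) (1 + τ i) ⁻¹' B
  have hA : ∀ i, MeasurableSet (A i) := fun i => hmeas _ hB
  obtain ⟨e0, he0, hx0, hy0⟩ := h0
  have hAW : ∀ i, i < N → A i ⊆ univ.pi fun _ : ι => S := by
    intro i hi z hz k _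
    have hw := h3 _ hz
    have t0 := hτ0 i
    have t1 := hτ1 i hi
    by_cases k1 : k = x
    · have := good_two hxy hx0 hy0 (hw.2 e0 he0) (1 + τ i) (-τ i) (by ring)
        (by rw [abs_le]; constructor <;> linarith) (by rw [abs_le]; constructor <;> linarith)
      rw [slide_x, slide_y hxy] at this
      rw [k1]
      convert this using 1
      module
    · by_cases k2 : k = y
      · have := good_two hxy hx0 hy0 (hw.2 e0 he0) (τ i) (1 - τ i) (by ring)
          (by rw [abs_le]; constructor <;> linarith) (by rw [abs_le]; constructor <;> linarith)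
        rw [slide_x, slide_y hxy] at this
        rw [k2]
        convert this using 1
        module
      · have := hw.1 k
        rwa [slide_o k1 k2] at this
  have hW1 : m (univ.pi fun _ : ι => S) ≤ 1 := by
    rw [hm, Measure.pi_pi]; simp [h1]
  have hAc : ∀ i, i < N → (c : ℝ≥0∞) ≤ m (A i) := by
    intro i _
    have hd := slide_det_abs (E := E) hxy (τ i)
    have hne : LinearMap.det (slide x y (τ i) (1 + τ i) : (ι → E) →ₗ[ℝ] (ι → E)) ≠ 0 := by
      intro h; rw [h] at hd; simp at hd
    have := addHaar_preimage_linearMap m hne B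
    simp only [A]
    rw [this, abs_inv, hd]
    simpa using h4
  obtain ⟨i, j, hi, hj, hij, hAA⟩ := hov m A _ hA hAW hW1 hAc
  refine ⟨L (i, j) ⁻¹' (A i ∩ A j), hmeas _ ((hA i).inter (hA j)), ?_, ?_⟩
  · intro w' hw'
    set z := L (i, j) w' with hz
    have hne := hτne i j hij
    have hw'z : w' = slide x y (τ i) (τ j) z := by
      have := slide_comp (E := E) hxy (-τ i / (τ j - τ i)) ((1 - τ i) / (τ j - τ i)) (τ i) (τ j)
      have e1 : -τ i / (τ j - τ i) + τ i * ((1 - τ i) / (τ j - τ i) - -τ i / (τ j - τ i)) = 0 := by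
        field_simp; ring
      have e2 : -τ i / (τ j - τ i) + τ j * ((1 - τ i) / (τ j - τ i) - -τ i / (τ j - τ i)) = 1 := by
        field_simp; ring
      rw [e1, e2, slide_id hxy] at this
      exact (LinearMap.congr_fun this w').symm
    have hw1 := h3 _ hw'.1
    have hw2 := h3 _ hw'.2
    have hw'w : w' = slide x y 0 (τ j - τ i) (slide x y (τ i) (1 + τ i) z) := by
      have := slide_comp (E := E) hxy (τ i) (1 + τ i) 0 (τ j - τ i)
      have e1 : τ i + 0 * (1 + τ i - τ i) = τ i := by ring
      have e2 : τ i + (τ j - τ i) * (1 + τ i - τ i) = τ j := by ring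
      rw [e1, e2] at this
      rw [hw'z]
      exact (LinearMap.congr_fun this z).symm
    have ex : w' x = slide x y (τ i) (1 + τ i) z x := by rw [slide_x, hw'z, slide_x]
    have ey : w' y = slide x y (τ j) (1 + τ j) z x := by rw [slide_x, hw'z, slide_y hxy]
    have eo : ∀ k, k ≠ x → k ≠ y → ∀ a b, w' k = slide x y a b z k := by
      intro k k1 k2 a b
      rw [slide_o k1 k2, hw'z, slide_o k1 k2]
    refine ⟨?_, ?_⟩
    · intro k
      by_cases k1 : k = x
      · rw [k1, ex]; exact hw1.1 x
      · by_cases k2 : k = y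
        · rw [k2, ey]; exact hw2.1 x
        · rw [eo k k1 k2 (τ i) (1 + τ i)]; exact hw1.1 k
    · rintro e (he | ⟨hxe, he⟩)
      · by_cases hye : y ∈ e
        · rw [hw'w]
          refine good_slide (by linarith) hxy (hy e he hye) hye (hw1.2 e he) 0 _ (by simp) ?_
            (Or.inl rfl)
          rw [abs_le]
          constructor <;> linarith [hτ0 i, hτ0 j, hτ1 i hi, hτ1 j hj]
        · refine ((hw1.2 e he).mono (by linarith)).congr ?_
          intro k hk
          by_cases k1 : k = x
          · rw [k1, ex]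
          · exact eo k k1 (fun h => hye (h ▸ hk)) _ _
      · refine (((hw2.2 _ he).perm (Equiv.swap x y)).mono (by linarith)).congr ?_
        intro k hk
        have k1 : k ≠ x := fun h => hxe (h ▸ hk)
        by_cases k2 : k = y
        · rw [k2, ey, Function.comp_apply, Equiv.swap_apply_right]
        · rw [Function.comp_apply, Equiv.swap_apply_of_ne_of_ne k1 k2]
          exact eo k k1 k2 _ _
  · rw [addHaar_preimage_linearMap m (hLdet i j hij), ENNReal.coe_mul]
    apply mul_le_mul' _ hAA
    have := hκle (i, j) (by simp [hi, hj, hij])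
    rw [← ENNReal.ofReal_coe_nnreal]
    exact ENNReal.ofReal_le_ofReal this

/-- The complete hypergraph of rank `k+1` on `U`. -/
def Kc (k : ℕ) (U : Finset ι) : Set (Finset ι) := {e | e ⊆ U ∧ e.card = k + 1}

theorem dens_step {P : Measure E → Set E → Prop} {k : ℕ} {U : Finset ι} (hU : k + 1 ≤ U.card)
    (h : Dens P (Kc k U)) (y : ι) (hyU : y ∉ U) : Dens P (Kc k (insert y U)) := by
  have swapK : ∀ (x : ι) (e : Finset ι), x ∈ U → x ∉ e → e ∈ Kc k (insert y U) →
      e.map (Equiv.swap x y).toEmbedding ∈ Kc k U := by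
    intro x e hx hxe he
    refine ⟨?_, by rw [Finset.card_map]; exact he.2⟩
    intro a ha
    obtain ⟨b, hb, rfl⟩ := Finset.mem_map.1 ha
    have hbx : b ≠ x := fun h => hxe (h ▸ hb)
    by_cases hby : b = y
    · subst hby; simpa using hx
    · have := he.1 hb
      rcases Finset.mem_insert.1 this with h | h
      · exact absurd h hby
      · simpa [Equiv.swap_apply_of_ne_of_ne hbx hby] using h
  have main : ∀ n : ℕ, ∀ J : Finset ι, J ⊆ U → J.card + n = k →
      Dens P {e | e ∈ Kc k U ∨ (e ∈ Kc k (insert y U) ∧ J ⊆ e)} := by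
    intro n
    induction n with
    | zero =>
      intro J hJ hc
      obtain ⟨x, hx, hxJ⟩ := Finset.exists_mem_notMem_of_card_lt_card (s := J) (t := U) (by omega)
      have hxy : x ≠ y := fun h => hyU (h ▸ hx)
      refine (dens_twin h x y hxy (fun e he hye => hyU (he.1 hye))).mono ?_
      rintro e (he | ⟨he, hJe⟩)
      · exact Or.inl he
      · by_cases hxe : x ∈ e
        · left
          have hsub : insert x J ⊆ e := Finset.insert_subset hxe hJe
          have hcard : (insert x J).card = k + 1 := by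
            rw [Finset.card_insert_of_notMem hxJ]; omega
          have := Finset.eq_of_subset_of_card_le hsub (by rw [hcard, he.2])
          rw [← this]
          exact ⟨Finset.insert_subset hx hJ, hcard⟩
        · exact Or.inr (swapK x e hx hxe he)
    | succ n ih =>
      intro J hJ hc
      obtain ⟨x, hx, hxJ⟩ := Finset.exists_mem_notMem_of_card_lt_card (s := J) (t := U) (by omega)
      have hxy : x ≠ y := fun h => hyU (h ▸ hx)
      have hcard : (insert x J).card = J.card + 1 := Finset.card_insert_of_notMem hxJ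
      have ih' := ih (insert x J) (Finset.insert_subset hx hJ) (by omega)
      have hyJ : y ∉ insert x J := fun h => hyU (Finset.insert_subset hx hJ h)
      refine (dens_slide ih' x y hxy ?_ ?_).mono ?_
      · obtain ⟨e, h1, h2, h3⟩ := Finset.exists_subsuperset_card_eq
          (s := insert y (insert x J)) (t := insert y U) (n := k + 1)
          (Finset.insert_subset_insert _ (Finset.insert_subset hx hJ))
          (by rw [Finset.card_insert_of_notMem hyJ]; omega)
          (by rw [Finset.card_insert_of_notMem hyU]; omega)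
        exact ⟨e, Or.inr ⟨⟨h2, h3⟩, (Finset.subset_insert _ _).trans h1⟩,
          h1 (by simp), h1 (by simp)⟩
      · rintro e (he | ⟨_, he⟩) hye
        · exact absurd (he.1 hye) hyU
        · exact he (Finset.mem_insert_self _ _)
      · rintro e (he | ⟨he, hJe⟩)
        · exact Or.inl (Or.inl he)
        · by_cases hxe : x ∈ e
          · exact Or.inl (Or.inr ⟨he, Finset.insert_subset hxe hJe⟩)
          · exact Or.inr ⟨hxe, Or.inl (swapK x e hx hxe he)⟩
  refine (main k ∅ (Finset.empty_subset _) (by simp)).mono ?_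
  intro e he
  exact Or.inr ⟨he, Finset.empty_subset _⟩

theorem dens_all {P : Measure E → Set E → Prop} {k : ℕ}
    (hbase : ∀ e : Finset ι, e.card = k + 1 → Dens P {e}) (U : Finset ι) :
    k + 1 ≤ U.card → Dens P (Kc k U) := by
  induction U using Finset.induction_on with
  | empty => intro h; simp at h
  | insert y U hy ih =>
    intro hc
    by_cases hU : k + 1 ≤ U.card
    · exact dens_step hU (ih hU) y hy
    · have hc' : (insert y U).card = k + 1 := by
        rw [Finset.card_insert_of_notMem hy] at hc ⊢; omega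
      refine (hbase _ hc').mono ?_
      intro e he
      exact Finset.eq_of_subset_of_card_le he.1 (by rw [hc', he.2])

end Pool.Agent.H158Z.Skel
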