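import Pool.Agent.H158Z.Skel3
import Pool.Agent.H248Z.BeerAnalytic

set_option autoImplicit false
set_option linter.unusedSectionVars false

namespace Pool.Agent.H158Z.Skel

open MeasureTheory Set Measure
open scoped ENNReal NNReal

variable {E : Type} [NormedAddCommGroup E] [NormedSpace ℝ E] [FiniteDimensional ℝ E]
  [MeasurableSpace E] [BorelSpace E] [SecondCountableTopology E] [LocallyCompactSpace E]

theorem conv_range {κ : Type} [Fintype κ] (X : κ → E) :
    convexHull ℝ (range X) = {p | ∃ w ∈ stdSimplex ℝ κ, ∑ i, w i • X i = p} := by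
  classical
  apply Subset.antisymm
  · apply convexHull_min
    · rintro _ ⟨i, rfl⟩
      exact ⟨Pi.single i 1, single_mem_stdSimplex ℝ i, by simp [Pi.single_apply]⟩
    · rintro _ ⟨w, hw, rfl⟩ _ ⟨w', hw', rfl⟩ a b ha hb hab
      refine ⟨a • w + b • w', convex_stdSimplex ℝ κ hw hw' ha hb hab, ?_⟩
      simp [add_smul, Finset.sum_add_distrib, Finset.smul_sum, smul_smul]
  · rintro _ ⟨w, hw, rfl⟩
    exact (convex_convexHull ℝ _).sum_mem (fun i _ => hw.1 i) hw.2
      fun i _ => subset_convexHull ℝ _ ⟨i, rfl⟩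

/-- The hypothesis: a Borel set of tuples of measure at least `ε` spans simplices inside `S`. -/
def Hyp (k : ℕ) (ε : ℝ≥0) (μ : Measure E) (S : Set E) : Prop :=
  ∃ F : Set (Fin (k + 1) → E), MeasurableSet F ∧ (∀ x ∈ F, convexHull ℝ (range x) ⊆ S) ∧
    (ε : ℝ≥0∞) ≤ (Measure.pi fun _ : Fin (k + 1) => μ) F

/-- Dilation of a simplex about its centroid. -/
def dil (k : ℕ) (r : ℝ) : (Fin (k + 1) → E) →ₗ[ℝ] (Fin (k + 1) → E) where
  toFun x := fun j => (1 + r * (k + 1)) • x j - r • ∑ i, x i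
  map_add' x y := by
    ext j
    simp only [Pi.add_apply, Finset.sum_add_distrib]
    module
  map_smul' t x := by
    ext j
    simp only [Pi.smul_apply, RingHom.id_apply, ← Finset.smul_sum]
    module

theorem dil_apply (k : ℕ) (r : ℝ) (x : Fin (k + 1) → E) (j : Fin (k + 1)) :
    dil k r x j = (1 + r * (k + 1)) • x j - r • ∑ i, x i := rfl

theorem dil_det (k : ℕ) {r : ℝ} (hr : 0 ≤ r) :
    LinearMap.det (dil k r : (Fin (k + 1) → E) →ₗ[ℝ] (Fin (k + 1) → E)) ≠ 0 := by
  intro h
  have hk := LinearMap.bot_lt_ker_of_det_eq_zero h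
  apply hk.ne'
  rw [LinearMap.ker_eq_bot']
  intro x hx
  have h1 : ∀ j, (1 + r * (k + 1)) • x j - r • ∑ i, x i = 0 := fun j => congrFun hx j
  have h2 : ∑ i, x i = 0 := by
    have h3 : ∑ j : Fin (k + 1), ((1 + r * (k + 1)) • x j - r • ∑ i, x i) = 0 :=
      Finset.sum_eq_zero fun j _ => h1 j
    rw [Finset.sum_sub_distrib, ← Finset.smul_sum, Finset.sum_const, Finset.card_univ,
      Fintype.card_fin, ← Nat.cast_smul_eq_nsmul ℝ] at h3
    push_cast at h3
    rw [← h3]
    module
  ext j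
  have := h1 j
  rw [h2, smul_zero, sub_zero] at this
  have hp : (1 + r * ((k : ℝ) + 1)) ≠ 0 := by positivity
  exact (smul_eq_zero.1 this).resolve_left hp

theorem dil_mem (k : ℕ) {r : ℝ} (hr : 0 ≤ r) (x : Fin (k + 1) → E) (c : Fin (k + 1) → ℝ)
    (h1 : ∑ j, c j = 1) (hc : ∀ j, |c j| ≤ r) :
    ∑ j, c j • x j ∈ convexHull ℝ (range (dil k r x)) := by
  rw [conv_range]
  have hp : 0 < (1 + r * ((k : ℝ) + 1)) := by positivity
  have hs : ∑ j, (c j + r) / (1 + r * ((k : ℝ) + 1)) = 1 := by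
    rw [← Finset.sum_div, Finset.sum_add_distrib, h1, Finset.sum_const, Finset.card_univ,
      Fintype.card_fin, nsmul_eq_mul]
    push_cast
    field_simp
  refine ⟨fun j => (c j + r) / (1 + r * ((k : ℝ) + 1)), ⟨fun j => ?_, hs⟩, ?_⟩
  · have := (abs_le.1 (hc j)).1
    apply div_nonneg _ hp.le
    linarith
  · simp only [dil_apply, smul_sub, Finset.sum_sub_distrib]
    rw [← Finset.sum_smul, hs, one_smul]
    have : ∀ j, ((c j + r) / (1 + r * ((k : ℝ) + 1))) • (1 + r * ((k : ℝ) + 1)) • x j =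
        c j • x j + r • x j := by
      intro j
      rw [smul_smul, div_mul_cancel₀ _ hp.ne', add_smul]
    simp only [this, Finset.sum_add_distrib, ← Finset.smul_sum]
    abel

theorem restr_pres {α ι : Type} [Fintype α] [Fintype ι] (ν : Measure E) [IsProbabilityMeasure ν]
    (f : α → ι) (hf : Function.Injective f) :
    (Measure.pi fun _ : α => ν) =
      (Measure.pi fun _ : ι => ν).map (fun z : ι → E => z ∘ f) := by
  classical
  have hm : Measurable (fun z : ι → E => z ∘ f) :=
    measurable_pi_lambda _ fun i => measurable_pi_apply _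
  apply Measure.pi_eq
  intro s hs
  rw [Measure.map_apply hm (MeasurableSet.univ_pi hs)]
  have e : (fun z : ι → E => z ∘ f) ⁻¹' (univ.pi s) =
      univ.pi (Function.extend f s fun _ => univ) := by
    ext z
    simp only [mem_preimage, mem_pi, mem_univ, true_imp_iff, Function.comp_apply]
    constructor
    · intro h i
      by_cases hi : ∃ a, f a = i
      · obtain ⟨a, rfl⟩ := hi
        rw [hf.extend_apply]; exact h a
      · rw [Function.extend_apply' _ _ _ hi]; trivial
    · intro h a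
      have := h (f a)
      rwa [hf.extend_apply] at this
  rw [e, Measure.pi_pi]
  symm
  apply Finset.prod_of_injOn f hf.injOn (fun _ _ => by simp)
  · intro i _ hi
    have : ¬ ∃ a, f a = i := by
      rintro ⟨a, rfl⟩
      exact hi ⟨a, by simp, rfl⟩
    rw [Function.extend_apply' _ _ _ this]
    simp
  · intro a _
    rw [hf.extend_apply]

theorem dens_base {ι : Type} [Fintype ι] [DecidableEq ι] (k : ℕ) (ε : ℝ≥0) (hε : 0 < ε)
    (e : Finset ι) (he : e.card = k + 1) : Dens (E := E) (Hyp k ε) {e} := by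
  intro r hr
  have hr0 : 0 ≤ r := by linarith
  have hdet := dil_det (E := E) k hr0
  let κ : ℝ≥0 := ⟨|(LinearMap.det (dil k r : (Fin (k + 1) → E) →ₗ[ℝ] (Fin (k + 1) → E)))⁻¹|,
    abs_nonneg _⟩
  have hκ : 0 < κ := abs_pos.2 (inv_ne_zero hdet)
  refine ⟨κ * ε, by positivity, fun μ _ S hP hS h1 => ?_⟩
  obtain ⟨F, hF, hFS, hεF⟩ := hP
  have hprob : IsProbabilityMeasure (μ.restrict S) := ⟨by simp [h1]⟩
  let g : e ≃ Fin (k + 1) := Finset.equivFinOfCardEq he
  let f : Fin (k + 1) → ι := fun j => (g.symm j : ι)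
  have hf : Function.Injective f := fun a b h => g.symm.injective (Subtype.ext h)
  have hm : Measurable (fun z : ι → E => z ∘ f) :=
    measurable_pi_lambda _ fun i => measurable_pi_apply _
  let F' : Set (Fin (k + 1) → E) := dil k r ⁻¹' F
  have hF' : MeasurableSet F' := (dil k r).continuous_of_finiteDimensional.measurable hF
  have hF'S : F' ∩ (univ.pi fun _ => S) = F' := by
    apply inter_eq_left.2
    intro x hx j _
    have := dil_mem k hr0 x (Pi.single j 1) (by simp) (by
      intro i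
      by_cases h : i = j
      · subst h; simpa using hr
      · simpa [Pi.single_eq_of_ne h] using hr0)
    have h2 : ∑ i, (Pi.single j (1 : ℝ) : Fin (k + 1) → ℝ) i • x i = x j := by
      simp [Pi.single_apply]
    rw [h2] at this
    exact hFS _ hx this
  refine ⟨(fun z : ι → E => z ∘ f) ⁻¹' F' ∩ univ.pi fun _ => S,
    (hm hF').inter (MeasurableSet.univ_pi fun _ => hS), ?_, ?_⟩
  · intro z hz
    refine ⟨fun i => hz.2 i (mem_univ _), ?_⟩
    rintro e' he' c hc hc1 hcr
    rw [show e' = e from he'] at hc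
    have hsum : ∀ {M : Type} [AddCommMonoid M] (φ : ι → M), (∀ i, i ∉ e → φ i = 0) →
        ∑ j, φ (f j) = ∑ i, φ i := by
      intro M _ φ hφ
      apply Finset.sum_of_injOn f hf.injOn (fun _ _ => by simp)
      · intro i _ hi
        apply hφ
        intro hie
        exact hi ⟨g ⟨i, hie⟩, by simp, by simp [f]⟩
      · intro a _; rfl
    have := dil_mem k hr0 (z ∘ f) (c ∘ f) (by rw [← hc1]; exact hsum c hc) (fun j => hcr _)
    rw [← hsum (fun i => c i • z i) (fun i hi => by rw [hc i hi, zero_smul])]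
    exact hFS _ hz.1 this
  · rw [← pi_restrict_apply μ S hS, ← Measure.map_apply hm hF', ← restr_pres _ f hf,
      pi_restrict_apply μ S hS, hF'S, addHaar_preimage_linearMap _ hdet, ENNReal.coe_mul]
    apply mul_le_mul' _ hεF
    rw [← ENNReal.ofReal_coe_nnreal]
    exact le_rfl

theorem hyp_of_outer (k : ℕ) (ε : ℝ≥0) (μ : Measure E) [IsAddHaarMeasure μ] (S : Set E)
    (hS : MeasurableSet S) (h1 : μ S = 1)
    (h : (ε : ℝ≥0∞) ≤ (Measure.pi fun _ : Fin (k + 1) => μ)
      {x | (∀ i, x i ∈ S) ∧ convexHull ℝ (range x) ⊆ S}) : Hyp k ε μ S := by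
  have hprob : IsProbabilityMeasure (μ.restrict S) := ⟨by simp [h1]⟩
  have : CompleteSpace E := FiniteDimensional.complete ℝ E
  set ν := (Measure.pi fun _ : Fin (k + 1) => μ.restrict S) with hν
  let B : Set ((Fin (k + 1) → E) × (Fin (k + 1) → ℝ)) :=
    {z | z.2 ∈ stdSimplex ℝ (Fin (k + 1)) ∧ ∑ i, z.2 i • z.1 i ∈ Sᶜ}
  have hB : MeasurableSet B := by
    apply MeasurableSet.inter
    · exact measurable_snd (isClosed_stdSimplex ℝ _).measurableSet
    · have : Continuous (fun z : (Fin (k + 1) → E) × (Fin (k + 1) → ℝ) =>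
          ∑ i, z.2 i • z.1 i) := by fun_prop
      exact this.measurable hS.compl
  have hA : AnalyticSet (Prod.fst '' B) := hB.analyticSet_image measurable_fst
  have hE : {x : Fin (k + 1) → E | convexHull ℝ (range x) ⊆ S} = (Prod.fst '' B)ᶜ := by
    ext p
    simp only [mem_ofPred_eq, mem_compl_iff, conv_range]
    constructor
    · rintro h ⟨z, ⟨hz1, hz2⟩, rfl⟩
      exact hz2 (h ⟨z.2, hz1, rfl⟩)
    · rintro h _ ⟨t, ht, rfl⟩
      by_contra hn
      exact h ⟨(p, t), ⟨ht, hn⟩, rfl⟩
  have hN : NullMeasurableSet {x : Fin (k + 1) → E | convexHull ℝ (range x) ⊆ S} ν := by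
    rw [hE]
    exact (Pool.Agent.H248Z.Beer.analytic_nullMeasurable ν hA).compl
  obtain ⟨F, hF1, hF2, hF3⟩ := hN.exists_measurable_subset_ae_eq
  refine ⟨F, hF2, fun p hp => hF1 hp, h.trans ?_⟩
  calc _ ≤ ν {x : Fin (k + 1) → E | convexHull ℝ (range x) ⊆ S} := by
        rw [hν, pi_restrict_apply μ S hS]
        apply measure_mono
        intro x hx
        exact ⟨hx.2, fun i _ => hx.1 i⟩
    _ = ν F := (measure_congr hF3).symm
    _ ≤ _ := by
        rw [hν, pi_restrict_apply μ S hS]
        exact measure_mono inter_subset_left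

end Pool.Agent.H158Z.Skel
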