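import Pool.Agent.H158Z.Skel4

set_option autoImplicit false
set_option linter.unusedSectionVars false

namespace Pool.Agent.H158Z.Skel

open MeasureTheory Set Measure Module
open scoped ENNReal NNReal Pointwise

variable {E : Type} [NormedAddCommGroup E] [NormedSpace ℝ E] [FiniteDimensional ℝ E]
  [MeasurableSpace E] [BorelSpace E] [SecondCountableTopology E] [LocallyCompactSpace E]

/-- The centroid of the tuple lies in the hull of the points other than the `j`-th. -/
def Ej (d : ℕ) (j : Fin (d + 2)) : Set (Fin (d + 2) → E) :=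
  {z | ((d : ℝ) + 2)⁻¹ • ∑ i, z i ∈ convexHull ℝ (range (z ∘ j.succAbove))}

theorem Ej_closed (d : ℕ) (j : Fin (d + 2)) : IsClosed (Ej (E := E) d j) := by
  have : CompactSpace (stdSimplex ℝ (Fin (d + 1))) :=
    isCompact_iff_compactSpace.1 (isCompact_stdSimplex ℝ _)
  let C : Set (stdSimplex ℝ (Fin (d + 1)) × (Fin (d + 2) → E)) :=
    {p | ∑ i, (p.1 : Fin (d + 1) → ℝ) i • p.2 (j.succAbove i) = ((d : ℝ) + 2)⁻¹ • ∑ i, p.2 i}
  have hC : IsClosed C := by
    apply isClosed_eq
    · apply continuous_finsetSum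
      intro i _
      apply Continuous.smul
      · exact (continuous_apply i).comp (continuous_subtype_val.comp continuous_fst)
      · fun_prop
    · fun_prop
  have : Ej (E := E) d j = Prod.snd '' C := by
    ext z
    simp only [Ej, mem_ofPred_eq, conv_range]
    constructor
    · rintro ⟨w, hw, h⟩
      exact ⟨(⟨w, hw⟩, z), h, rfl⟩
    · rintro ⟨p, hp, rfl⟩
      exact ⟨p.1, p.1.2, hp⟩
  rw [this]
  exact isClosedMap_snd_of_compactSpace _ hC

theorem Ej_cover (d : ℕ) (hd : finrank ℝ E = d) (z : Fin (d + 2) → E) : ∃ j, z ∈ Ej d j := by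
  classical
  have hp : (0 : ℝ) < (d : ℝ) + 2 := by positivity
  have h1 : ((d : ℝ) + 2)⁻¹ • ∑ i, z i ∈ convexHull ℝ (range z) := by
    rw [conv_range]
    refine ⟨fun _ => ((d : ℝ) + 2)⁻¹, ⟨fun _ => by positivity, ?_⟩, by rw [Finset.smul_sum]⟩
    rw [Finset.sum_const, Finset.card_univ, Fintype.card_fin, nsmul_eq_mul]
    push_cast
    field_simp
  rw [convexHull_eq_union] at h1
  simp only [mem_iUnion] at h1
  obtain ⟨t, ht, hai, hmem⟩ := h1
  have hcard : t.card ≤ d + 1 := by
    have := hai.card_le_finrank_succ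
    rw [Fintype.card_coe] at this
    exact this.trans (by have := Submodule.finrank_le (vectorSpan ℝ (range ((↑) : t → E))); omega)
  choose! g hg using fun p (hp : p ∈ (t : Set E)) => ht hp
  obtain ⟨j, -, hj⟩ := Finset.exists_mem_notMem_of_card_lt_card (s := t.image g)
    (t := (Finset.univ : Finset (Fin (d + 2))))
    (by have := Finset.card_image_le (s := t) (f := g); simp; omega)
  refine ⟨j, convexHull_mono ?_ hmem⟩
  intro p hp
  have hne : g p ≠ j := fun h => hj (h ▸ Finset.mem_image_of_mem g hp)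
  obtain ⟨i, hi⟩ := Fin.exists_succAbove_eq hne
  exact ⟨i, by simp [hi, hg p hp]⟩

theorem section_le (d : ℕ) (hd : finrank ℝ E = d) (μ : Measure E) [IsAddHaarMeasure μ]
    (j : Fin (d + 2)) (z : Fin (d + 2) → E) :
    μ {v | Function.update z j v ∈ Ej d j} ≤
      ((d + 2 : ℝ≥0) ^ d : ℝ≥0) * μ (convexHull ℝ (range (z ∘ j.succAbove))) := by
  have hp : (0 : ℝ) < (d : ℝ) + 2 := by positivity
  have e : {v | Function.update z j v ∈ Ej d j} =
      (fun v => v + ∑ i, z (j.succAbove i)) ⁻¹'
        (((d : ℝ) + 2) • convexHull ℝ (range (z ∘ j.succAbove))) := by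
    ext v
    have e1 : Function.update z j v ∘ j.succAbove = z ∘ j.succAbove := by
      ext i
      simp
    have e2 : ∑ i, Function.update z j v i = v + ∑ i, z (j.succAbove i) := by
      rw [Fin.sum_univ_succAbove _ j]
      simp
    simp only [Ej, mem_ofPred_eq, mem_preimage, e1, e2]
    rw [mem_smul_set_iff_inv_smul_mem₀ hp.ne']
  rw [e, measure_preimage_add_right, addHaar_smul_of_nonneg μ hp.le, hd,
    ← ENNReal.ofReal_coe_nnreal]
  push_cast
  exact le_rfl

theorem final (k d : ℕ) (hkd : k ≤ d) (hd : finrank ℝ E = d) (ε : ℝ≥0) (hε : 0 < ε) :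
    ∃ δ : ℝ≥0, 0 < δ ∧ ∀ (μ : Measure E) [IsAddHaarMeasure μ] (S : Set E),
      Hyp k ε μ S → MeasurableSet S → μ S = 1 →
      ∃ X : Fin (d + 1) → E, AffineIndependent ℝ X ∧
        (δ : ℝ≥0∞) ≤ μ (convexHull ℝ (range X)) ∧
        ∀ s : Finset (Fin (d + 1)), s.card = k + 1 →
          convexHull ℝ (X '' (s : Set (Fin (d + 1)))) ⊆ S := by
  obtain ⟨c, hc, h⟩ := dens_all (E := E) (ι := Fin (d + 2)) (P := Hyp k ε) (k := k)
    (fun e he => dens_base k ε hε e he) Finset.univ (by simp; omega) 1 le_rfl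
  let D : ℝ≥0 := (d + 2 : ℝ≥0) ^ d
  have hD : 0 < D := by positivity
  let δ : ℝ≥0 := c / (2 * ((d + 2 : ℝ≥0) * D))
  have hδ : 0 < δ := by positivity
  refine ⟨δ, hδ, fun μ _ S hP hS h1 => ?_⟩
  obtain ⟨B, hB, h3, h4⟩ := h μ S hP hS h1
  have hprob : IsProbabilityMeasure (μ.restrict S) := ⟨by simp [h1]⟩
  have hex : ∃ z ∈ B, ∃ j : Fin (d + 2),
      (δ : ℝ≥0∞) ≤ μ (convexHull ℝ (range (z ∘ j.succAbove))) := by
    by_contra hcon
    push Not at hcon
    set ν := (Measure.pi fun _ : Fin (d + 2) => μ.restrict S) with hν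
    have hBj : ∀ j, ν (B ∩ Ej d j) ≤ ((D * δ : ℝ≥0) : ℝ≥0∞) := by
      intro j
      have hm : MeasurableSet (B ∩ Ej d j) := hB.inter (Ej_closed d j).measurableSet
      rw [← lintegral_indicator_one hm, hν, resample _ (measurable_one.indicator hm) j]
      calc _ ≤ ∫⁻ _z, ((D * δ : ℝ≥0) : ℝ≥0∞) ∂ν := by
            apply lintegral_mono
            intro z
            have hm2 : MeasurableSet (Function.update z j ⁻¹' (B ∩ Ej d j)) :=
              measurable_update z hm
            have : ∫⁻ v, (B ∩ Ej d j).indicator (1 : (Fin (d + 2) → E) → ℝ≥0∞)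
                (Function.update z j v) ∂(μ.restrict S) =
                (μ.restrict S) (Function.update z j ⁻¹' (B ∩ Ej d j)) := by
              rw [← lintegral_indicator_one hm2]
              rfl
            simp only [this]
            rcases (Function.update z j ⁻¹' (B ∩ Ej d j)).eq_empty_or_nonempty with h0 | ⟨v0, hv0⟩
            · rw [h0]; simp
            · have e1 : Function.update z j v0 ∘ j.succAbove = z ∘ j.succAbove := by
                ext i
                simp
              have h5 := hcon _ hv0.1 j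
              rw [e1] at h5
              calc _ ≤ μ (Function.update z j ⁻¹' (B ∩ Ej d j)) := Measure.restrict_apply_le _ _
                _ ≤ μ {v | Function.update z j v ∈ Ej d j} := measure_mono fun v hv => hv.2
                _ ≤ _ := section_le d hd μ j z
                _ ≤ ((D * δ : ℝ≥0) : ℝ≥0∞) := by
                    rw [ENNReal.coe_mul]
                    exact mul_le_mul' le_rfl h5.le
        _ = _ := by simp
    have hBS : B ∩ (univ.pi fun _ => S) = B :=
      inter_eq_left.2 fun z hz i _ => (h3 z hz).1 i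
    have hcov : B ⊆ ⋃ j ∈ (Finset.univ : Finset (Fin (d + 2))), B ∩ Ej d j := by
      intro z hz
      obtain ⟨j, hj⟩ := Ej_cover d hd z
      simp only [mem_iUnion]
      exact ⟨j, Finset.mem_univ _, hz, hj⟩
    have h6 : (c : ℝ≥0∞) ≤ (((d + 2 : ℝ≥0) * (D * δ) : ℝ≥0) : ℝ≥0∞) := by
      calc (c : ℝ≥0∞) ≤ ν B := by rw [hν, pi_restrict_apply μ S hS, hBS]; exact h4
        _ ≤ ∑ j ∈ (Finset.univ : Finset (Fin (d + 2))), ν (B ∩ Ej d j) :=
            (measure_mono hcov).trans (measure_biUnion_finset_le _ _)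
        _ ≤ ∑ _j ∈ (Finset.univ : Finset (Fin (d + 2))), ((D * δ : ℝ≥0) : ℝ≥0∞) :=
            Finset.sum_le_sum fun j _ => hBj j
        _ = _ := by simp
    have h7 : c ≤ (d + 2 : ℝ≥0) * (D * δ) := by exact_mod_cast h6
    have h8 : (d + 2 : ℝ≥0) * (D * δ) = c / 2 := by
      simp only [δ]
      field_simp
    rw [h8] at h7
    exact absurd (NNReal.half_lt_self hc.ne') (not_lt.2 h7)
  obtain ⟨z, hz, j, hj⟩ := hex
  refine ⟨z ∘ j.succAbove, ?_, hj, ?_⟩
  · rw [affineIndependent_iff_le_finrank_vectorSpan ℝ _ (n := d) (by simp)]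
    by_contra hlt
    have hne : affineSpan ℝ (range (z ∘ j.succAbove)) ≠ ⊤ := by
      intro htop
      apply hlt
      rw [← direction_affineSpan, htop, AffineSubspace.direction_top, finrank_top, hd]
    have h0 := addHaar_affineSubspace μ _ hne
    have h9 : μ (convexHull ℝ (range (z ∘ j.succAbove))) = 0 :=
      measure_mono_null (convexHull_subset_affineSpan _) h0
    rw [h9] at hj
    exact absurd hj (not_le.2 (by exact_mod_cast hδ))
  · intro s hs
    have hg := (h3 z hz).2 (s.map j.succAboveEmb) ⟨Finset.subset_univ _, by simpa using hs⟩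
    intro p hp
    have e : (z ∘ j.succAbove) '' (s : Set (Fin (d + 1))) =
        range (fun i : (s.map j.succAboveEmb) => z i) := by
      ext q
      simp only [mem_image, mem_range, Finset.mem_coe, Subtype.exists, Finset.mem_map,
        Function.comp_apply]
      constructor
      · rintro ⟨i, hi, rfl⟩
        exact ⟨_, ⟨i, hi, rfl⟩, rfl⟩
      · rintro ⟨_, ⟨i, hi, rfl⟩, rfl⟩
        exact ⟨i, hi, rfl⟩
    rw [e] at hp
    generalize s.map j.succAboveEmb = e' at hg hp
    rw [conv_range] at hp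
    obtain ⟨w, hw, rfl⟩ := hp
    let c' : Fin (d + 2) → ℝ := fun i => if h : i ∈ e' then w ⟨i, h⟩ else 0
    have hs1 : ∀ {M : Type} [AddCommMonoid M] (φ : Fin (d + 2) → M), (∀ i, i ∉ e' → φ i = 0) →
        ∑ i : e', φ i = ∑ i, φ i := by
      intro M _ φ hφ
      rw [Finset.sum_coe_sort e' φ]
      exact Finset.sum_subset (Finset.subset_univ _) fun i _ hi => hφ i hi
    have hc0 : ∀ i, i ∉ e' → c' i = 0 := fun i hi => by simp [c', hi]
    have hcw : ∀ i : e', c' i = w i := fun i => by simp [c', i.2]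
    have := hg c' hc0 (by rw [← hs1 c' hc0]; simp only [hcw]; exact hw.2) (by
      intro i
      by_cases hi : i ∈ e'
      · have := hcw ⟨i, hi⟩
        simp only at this
        rw [this, abs_of_nonneg (hw.1 _)]
        exact (mem_Icc_of_mem_stdSimplex hw _).2
      · rw [hc0 i hi]; simp)
    rw [← hs1 (fun i => c' i • z i) (fun i hi => by rw [hc0 i hi, zero_smul])] at this
    simpa only [hcw] using this

theorem pi_smul_eq {ι : Type} [Fintype ι] (μ : Measure E) [SigmaFinite μ] (c : ℝ≥0) :
    (Measure.pi fun _ : ι => (c • μ)) = (c ^ Fintype.card ι) • Measure.pi fun _ : ι => μ := by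
  apply Measure.pi_eq
  intro s _
  have e : ∀ (a : ℝ≥0) (b : ℝ≥0∞), a • b = (a : ℝ≥0∞) * b := fun a b => rfl
  simp only [Measure.smul_apply, Measure.pi_pi, e, Finset.prod_mul_distrib, Finset.prod_const,
    Finset.card_univ, ENNReal.coe_pow]

end Pool.Agent.H158Z.Skel
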