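import Mathlib

/-!
A finite covering of a unicoherent continuum by a non-unicoherent one:
the three-dimensional torus covers the Hantzsche Wendt flat manifold.
-/

set_option autoImplicit false

open Set Topology

namespace Pool.Agent.H158Z.Unicoh

/-- If every map of a connected metric space into the circle lifts to the line, the space is
unicoherent. -/
theorem unicoherent_of_lifts {Y : Type} [MetricSpace Y] [PreconnectedSpace Y]
    (hl : ∀ g : Y → UnitAddCircle, Continuous g →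
      ∃ G : Y → ℝ, Continuous G ∧ ∀ y, (G y : UnitAddCircle) = g y)
    {A B : Set Y} (hA : IsClosed A) (hB : IsClosed B) (cA : IsConnected A) (cB : IsConnected B)
    (hAB : A ∪ B = univ) : IsConnected (A ∩ B) := by
  classical
  refine ⟨?_, ?_⟩
  · have h := (isPreconnected_closed_iff.1 (isPreconnected_univ (α := Y))) A B hA hB
      (by rw [hAB]) (by simpa using cA.nonempty) (by simpa using cB.nonempty)
    simpa using h
  rw [isPreconnected_closed_iff]
  intro t t' ht ht' hsub hP hQ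
  by_contra hne
  have hdis : Disjoint (A ∩ B ∩ t) (A ∩ B ∩ t') := by
    rw [Set.disjoint_left]
    rintro x ⟨hx, hxt⟩ ⟨-, hxt'⟩
    exact hne ⟨x, hx, hxt, hxt'⟩
  obtain ⟨u, hu0, hu1, -⟩ := exists_continuous_zero_one_of_isClosed
    ((hA.inter hB).inter ht) ((hA.inter hB).inter ht') hdis
  let g : Y → UnitAddCircle := fun y =>
    if y ∈ A then ((u y / 2 : ℝ) : UnitAddCircle) else ((-(u y / 2) : ℝ) : UnitAddCircle)
  have gA : ∀ y ∈ A, g y = ((u y / 2 : ℝ) : UnitAddCircle) := fun y hy => by simp only [g, if_pos hy]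
  have gB : ∀ y ∈ B, g y = ((-(u y / 2) : ℝ) : UnitAddCircle) := by
    intro y hy
    by_cases hyA : y ∈ A
    · rw [gA y hyA]
      rcases hsub ⟨hyA, hy⟩ with h | h
      · have : u y = 0 := hu0 ⟨⟨hyA, hy⟩, h⟩
        rw [this]; simp
      · have : u y = 1 := hu1 ⟨⟨hyA, hy⟩, h⟩
        rw [this, ← sub_eq_zero, ← AddCircle.coe_sub, AddCircle.coe_eq_zero_iff]
        exact ⟨1, by norm_num⟩
    · simp only [g, if_neg hyA]
  have hcoe : Continuous ((↑) : ℝ → UnitAddCircle) := AddCircle.continuous_mk' 1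
  have hg : Continuous g := by
    rw [← continuousOn_univ, ← hAB]
    refine ContinuousOn.union_of_isClosed ?_ ?_ hA hB
    · refine ContinuousOn.congr (f := fun y => ((u y / 2 : ℝ) : UnitAddCircle)) ?_ gA
      exact (hcoe.comp (by fun_prop)).continuousOn
    · refine ContinuousOn.congr (f := fun y => ((-(u y / 2) : ℝ) : UnitAddCircle)) ?_ gB
      exact (hcoe.comp (by fun_prop)).continuousOn
  obtain ⟨G, hG, hGg⟩ := hl g hg
  obtain ⟨p, ⟨hpA, hpB⟩, hpt⟩ := hP
  obtain ⟨q, ⟨hqA, hqB⟩, hqt⟩ := hQ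
  have hup : u p = 0 := hu0 ⟨⟨hpA, hpB⟩, hpt⟩
  have huq : u q = 1 := hu1 ⟨⟨hqA, hqB⟩, hqt⟩
  have hk : ((G p : ℝ) : UnitAddCircle) = 0 := by
    rw [hGg, gA p hpA, hup]; simp
  have cov := AddCircle.isCoveringMap_coe (1 : ℝ)
  have e1 : EqOn G (fun y => G p + u y / 2) A := by
    refine cov.eqOn_of_comp_eqOn cA.isPreconnected hG.continuousOn
      (Continuous.continuousOn (by fun_prop)) ?_ hpA (by simp [hup])
    intro y hy
    simp only [Function.comp_apply]
    rw [hGg, gA y hy, AddCircle.coe_add, hk, zero_add]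
  have e2 : EqOn G (fun y => G p + -(u y / 2)) B := by
    refine cov.eqOn_of_comp_eqOn cB.isPreconnected hG.continuousOn
      (Continuous.continuousOn (by fun_prop)) ?_ hpB (by simp [hup])
    intro y hy
    simp only [Function.comp_apply]
    rw [hGg, gB y hy, AddCircle.coe_add, hk, zero_add]
  have h1 := e1 hqA
  have h2 := e2 hqB
  simp only [huq] at h1 h2
  linarith

/-- The three-dimensional torus. -/
abbrev T3 : Type := UnitAddCircle × UnitAddCircle × UnitAddCircle

/-- Its universal cover. -/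
abbrev E3 : Type := ℝ × ℝ × ℝ

/-- The element one half of the circle. -/
noncomputable def hf : UnitAddCircle := ((1 / 2 : ℝ) : UnitAddCircle)

theorem hf_add_hf : hf + hf = 0 := by
  rw [hf, ← AddCircle.coe_add, AddCircle.coe_eq_zero_iff]
  exact ⟨1, by norm_num⟩

theorem neg_hf : -hf = hf := by
  rw [neg_eq_iff_add_eq_zero, hf_add_hf]

theorem hf_ne : hf ≠ 0 := by
  rw [hf, Ne, AddCircle.coe_eq_zero_iff]
  rintro ⟨n, hn⟩
  have h1 : (2 * n : ℝ) = 1 := by
    simp only [zsmul_eq_mul, mul_one] at hn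
    linarith
  have h2 : (2 * n : ℤ) = 1 := by exact_mod_cast h1
  omega

/-- First generator of the Klein four group acting on the torus. -/
noncomputable def ra (p : T3) : T3 := (p.1 + hf, -p.2.1 + hf, -p.2.2)

/-- Second generator. -/
noncomputable def rb (p : T3) : T3 := (-p.1, p.2.1 + hf, -p.2.2 + hf)

/-- Their product. -/
noncomputable def rc (p : T3) : T3 := (-p.1 + hf, -p.2.1, p.2.2 + hf)

theorem cont_ra : Continuous ra := by unfold ra; fun_prop
theorem cont_rb : Continuous rb := by unfold rb; fun_prop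
theorem cont_rc : Continuous rc := by unfold rc; fun_prop

theorem ra_ra (p : T3) : ra (ra p) = p := by
  simp [ra, add_assoc, hf_add_hf]
theorem rb_rb (p : T3) : rb (rb p) = p := by
  simp [rb, add_assoc, hf_add_hf]
theorem rc_rc (p : T3) : rc (rc p) = p := by
  simp [rc, add_assoc, hf_add_hf]
theorem ra_rb (p : T3) : ra (rb p) = rc p := by
  simp [ra, rb, rc, neg_hf, add_comm, ← add_assoc, hf_add_hf]
theorem rb_ra (p : T3) : rb (ra p) = rc p := by
  simp [ra, rb, rc, neg_hf, add_comm, ← add_assoc, hf_add_hf]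
theorem ra_rc (p : T3) : ra (rc p) = rb p := by rw [← ra_rb, ra_ra]
theorem rb_rc (p : T3) : rb (rc p) = ra p := by rw [← rb_ra, rb_rb]
theorem rc_ra (p : T3) : rc (ra p) = rb p := by rw [← rb_ra, ra_ra]
theorem rc_rb (p : T3) : rc (rb p) = ra p := by rw [← ra_rb, rb_rb]

theorem ra_ne (p : T3) : ra p ≠ p := fun h => hf_ne (by simpa [ra] using congrArg Prod.fst h)
theorem rb_ne (p : T3) : rb p ≠ p := fun h =>
  hf_ne (by simpa [rb] using congrArg (fun x : T3 => x.2.1) h)
theorem rc_ne (p : T3) : rc p ≠ p := fun h =>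
  hf_ne (by simpa [rc] using congrArg (fun x : T3 => x.2.2) h)

/-- A map into a metric space whose fibres are the orbits. -/
noncomputable def FF (p : T3) : C(T3, ℝ) :=
  ⟨fun q => dist p q * dist (ra p) q * dist (rb p) q * dist (rc p) q, by fun_prop⟩

theorem cont_FF : Continuous FF := by
  refine ContinuousMap.continuous_of_continuous_uncurry _ ?_
  have h1 := cont_ra
  have h2 := cont_rb
  have h3 := cont_rc
  change Continuous fun x : T3 × T3 =>
    dist x.1 x.2 * dist (ra x.1) x.2 * dist (rb x.1) x.2 * dist (rc x.1) x.2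
  fun_prop

theorem FF_ra (p : T3) : FF (ra p) = FF p := by
  ext q; simp only [FF, ContinuousMap.coe_mk, ra_ra, rb_ra, rc_ra]; ring
theorem FF_rb (p : T3) : FF (rb p) = FF p := by
  ext q; simp only [FF, ContinuousMap.coe_mk, ra_rb, rb_rb, rc_rb]; ring
theorem FF_rc (p : T3) : FF (rc p) = FF p := by
  ext q; simp only [FF, ContinuousMap.coe_mk, ra_rc, rb_rc, rc_rc]; ring

theorem FF_eq {p q : T3} (h : FF p = FF q) : q = p ∨ q = ra p ∨ q = rb p ∨ q = rc p := by
  have h1 := congrArg (fun φ : C(T3, ℝ) => φ q) h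
  simp only [FF, ContinuousMap.coe_mk, dist_self, zero_mul, mul_eq_zero, dist_eq_zero] at h1
  rcases h1 with ((h1 | h1) | h1) | h1
  · exact Or.inl h1.symm
  · exact Or.inr (Or.inl h1.symm)
  · exact Or.inr (Or.inr (Or.inl h1.symm))
  · exact Or.inr (Or.inr (Or.inr h1.symm))

/-- The Hantzsche Wendt manifold, as a subspace of a metric space. -/
abbrev HW : Type := Set.range FF

/-- The covering map. -/
noncomputable def ff (p : T3) : HW := ⟨FF p, p, rfl⟩

theorem cont_ff : Continuous ff := cont_FF.subtype_mk _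

theorem surj_ff : Function.Surjective ff := by
  rintro ⟨_, p, rfl⟩
  exact ⟨p, rfl⟩

theorem quot_ff : IsQuotientMap ff :=
  cont_ff.isClosedMap.isQuotientMap cont_ff surj_ff

theorem ff_ra (p : T3) : ff (ra p) = ff p := Subtype.ext (FF_ra p)
theorem ff_rb (p : T3) : ff (rb p) = ff p := Subtype.ext (FF_rb p)
theorem ff_rc (p : T3) : ff (rc p) = ff p := Subtype.ext (FF_rc p)

theorem ff_eq {p q : T3} (h : ff p = ff q) : q = p ∨ q = ra p ∨ q = rb p ∨ q = rc p :=
  FF_eq (congrArg Subtype.val h)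

theorem open_ff : IsOpenMap ff := by
  intro U hU
  rw [← quot_ff.isOpen_preimage]
  have : ff ⁻¹' (ff '' U) = U ∪ ra ⁻¹' U ∪ rb ⁻¹' U ∪ rc ⁻¹' U := by
    ext p
    constructor
    · rintro ⟨q, hq, h⟩
      rcases ff_eq h.symm with rfl | rfl | rfl | rfl
      · exact Or.inl (Or.inl (Or.inl hq))
      · exact Or.inl (Or.inl (Or.inr hq))
      · exact Or.inl (Or.inr hq)
      · exact Or.inr hq
    · rintro (((h | h) | h) | h)
      · exact ⟨p, h, rfl⟩
      · exact ⟨_, h, ff_ra p⟩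
      · exact ⟨_, h, ff_rb p⟩
      · exact ⟨_, h, ff_rc p⟩
  rw [this]
  exact ((hU.union (hU.preimage cont_ra)).union (hU.preimage cont_rb)).union (hU.preimage cont_rc)

theorem sep {r : T3 → T3} (hr : Continuous r) {p : T3} (hp : r p ≠ p) :
    ∃ U : Set T3, IsOpen U ∧ p ∈ U ∧ ∀ q ∈ U, r q ∉ U := by
  obtain ⟨W, V, hW, hV, hpW, hpV, hd⟩ := t2_separation hp
  refine ⟨V ∩ r ⁻¹' W, hV.inter (hW.preimage hr), ⟨hpV, hpW⟩, ?_⟩
  rintro q ⟨-, hq⟩ ⟨hq', -⟩
  exact Set.disjoint_left.1 hd hq hq'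

theorem locHomeo_ff : IsLocalHomeomorph ff := by
  rw [isLocalHomeomorph_iff_isOpenEmbedding_restrict]
  intro p
  obtain ⟨Ua, ha, hpa, ha'⟩ := sep cont_ra (ra_ne p)
  obtain ⟨Ub, hb, hpb, hb'⟩ := sep cont_rb (rb_ne p)
  obtain ⟨Uc, hc, hpc, hc'⟩ := sep cont_rc (rc_ne p)
  have hU : IsOpen (Ua ∩ Ub ∩ Uc) := (ha.inter hb).inter hc
  refine ⟨Ua ∩ Ub ∩ Uc, hU.mem_nhds ⟨⟨hpa, hpb⟩, hpc⟩, ?_⟩
  refine IsOpenEmbedding.of_continuous_injective_isOpenMap
    (cont_ff.comp continuous_subtype_val) ?_ (open_ff.comp hU.isOpenMap_subtype_val)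
  rintro ⟨x, hx⟩ ⟨y, hy⟩ h
  have h' : ff x = ff y := h
  rcases ff_eq h' with rfl | rfl | rfl | rfl
  · rfl
  · exact absurd hy.1.1 (ha' x hx.1.1)
  · exact absurd hy.1.2 (hb' x hx.1.2)
  · exact absurd hy.2 (hc' x hx.2)

/-- The universal covering of the torus. -/
def pr (e : E3) : T3 := ((e.1 : UnitAddCircle), (e.2.1 : UnitAddCircle), (e.2.2 : UnitAddCircle))

theorem quot_pr : IsOpenQuotientMap pr := by
  have h : IsOpenQuotientMap ((↑) : ℝ → UnitAddCircle) := QuotientAddGroup.isOpenQuotientMap_mk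
  exact h.prodMap (h.prodMap h)

theorem coe_eq_coe {x y : ℝ} (h : (x : UnitAddCircle) = y) : ∃ n : ℤ, y = x + n := by
  have h1 : ((y - x : ℝ) : UnitAddCircle) = 0 := by rw [AddCircle.coe_sub, h, sub_self]
  obtain ⟨n, hn⟩ := (AddCircle.coe_eq_zero_iff 1).1 h1
  refine ⟨n, ?_⟩
  simp only [zsmul_eq_mul, mul_one] at hn
  linarith

theorem coe_add_int (x : ℝ) (n : ℤ) : ((x + n : ℝ) : UnitAddCircle) = x := by
  rw [AddCircle.coe_add, add_eq_left, AddCircle.coe_eq_zero_iff]
  exact ⟨n, by simp⟩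

/-- Lifts of the generators. -/
noncomputable def la (e : E3) : E3 := (e.1 + 1 / 2, -e.2.1 + 1 / 2, -e.2.2)

/-- Lifts of the generators. -/
noncomputable def lb (e : E3) : E3 := (-e.1, e.2.1 + 1 / 2, -e.2.2 + 1 / 2)

theorem pr_la (e : E3) : pr (la e) = ra (pr e) := by
  simp only [pr, la, ra, hf, AddCircle.coe_add, AddCircle.coe_neg]

theorem pr_lb (e : E3) : pr (lb e) = rb (pr e) := by
  simp only [pr, lb, rb, hf, AddCircle.coe_add, AddCircle.coe_neg]

theorem lifts_HW (g : HW → UnitAddCircle) (hg : Continuous g) :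
    ∃ G : HW → ℝ, Continuous G ∧ ∀ y, (G y : UnitAddCircle) = g y := by
  have hq : IsQuotientMap (ff ∘ pr) := quot_ff.comp quot_pr.isQuotientMap
  have cov := AddCircle.isCoveringMap_coe (1 : ℝ)
  obtain ⟨r0, hr0⟩ := QuotientAddGroup.mk_surjective (g (ff (pr 0)))
  obtain ⟨H, ⟨-, hH⟩, -⟩ := cov.existsUnique_continuousMap_lifts
    (⟨g ∘ (ff ∘ pr), hg.comp hq.continuous⟩ : C(E3, UnitAddCircle)) 0 r0 hr0
  have hH' : ∀ e, ((H e : ℝ) : UnitAddCircle) = g (ff (pr e)) := fun e => congrFun hH e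
  have hc : Continuous H := H.continuous
  -- deck transformations shift the lift by a constant
  have const : ∀ γ : E3 → E3, Continuous γ → (∀ e, ff (pr (γ e)) = ff (pr e)) →
      ∃ c : ℝ, ∀ e, H (γ e) = H e + c := by
    intro γ hγ hd
    refine ⟨H (γ 0) - H 0, ?_⟩
    have := cov.eq_of_comp_eq (g₁ := fun e => H (γ e)) (g₂ := fun e => H e + (H (γ 0) - H 0))
      (hc.comp hγ) (by fun_prop) ?_ 0 (by simp)
    · exact fun e => congrFun this e
    · funext e
      simp only [Function.comp_apply]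
      rw [AddCircle.coe_add, AddCircle.coe_sub, hH', hH', hH', hH', hd, hd, sub_self, add_zero]
  obtain ⟨ca, hca⟩ := const la (by unfold la; fun_prop) (fun e => by rw [pr_la, ff_ra])
  obtain ⟨cb, hcb⟩ := const lb (by unfold lb; fun_prop) (fun e => by rw [pr_lb, ff_rb])
  have t1 : ∀ (n : ℤ) (e : E3), H (e.1 + n, e.2.1, e.2.2) = H e := by
    intro n
    obtain ⟨c, hc'⟩ := const (fun e => (e.1 + n, e.2.1, e.2.2)) (by fun_prop)
      (fun e => by simp only [pr, coe_add_int])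
    have h1 := hc' 0
    have h2 := hcb ((0 : E3).1 + n, (0 : E3).2.1, (0 : E3).2.2)
    have h3 := hc' (lb ((0 : E3).1 + n, (0 : E3).2.1, (0 : E3).2.2))
    have h4 := hcb 0
    have h5 : ((lb ((0 : E3).1 + n, (0 : E3).2.1, (0 : E3).2.2)).1 + n,
        (lb ((0 : E3).1 + n, (0 : E3).2.1, (0 : E3).2.2)).2.1,
        (lb ((0 : E3).1 + n, (0 : E3).2.1, (0 : E3).2.2)).2.2) = lb 0 := by
      simp [lb]
    rw [h5] at h3
    have : c = 0 := by linarith
    intro e
    rw [hc', this, add_zero]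
  have t2 : ∀ (n : ℤ) (e : E3), H (e.1, e.2.1 + n, e.2.2) = H e := by
    intro n
    obtain ⟨c, hc'⟩ := const (fun e => (e.1, e.2.1 + n, e.2.2)) (by fun_prop)
      (fun e => by simp only [pr, coe_add_int])
    have h1 := hc' 0
    have h2 := hca ((0 : E3).1, (0 : E3).2.1 + n, (0 : E3).2.2)
    have h3 := hc' (la ((0 : E3).1, (0 : E3).2.1 + n, (0 : E3).2.2))
    have h4 := hca 0
    have h5 : ((la ((0 : E3).1, (0 : E3).2.1 + n, (0 : E3).2.2)).1,
        (la ((0 : E3).1, (0 : E3).2.1 + n, (0 : E3).2.2)).2.1 + n,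
        (la ((0 : E3).1, (0 : E3).2.1 + n, (0 : E3).2.2)).2.2) = la 0 := by
      simp [la]
    rw [h5] at h3
    have : c = 0 := by linarith
    intro e
    rw [hc', this, add_zero]
  have t3 : ∀ (n : ℤ) (e : E3), H (e.1, e.2.1, e.2.2 + n) = H e := by
    intro n
    obtain ⟨c, hc'⟩ := const (fun e => (e.1, e.2.1, e.2.2 + n)) (by fun_prop)
      (fun e => by simp only [pr, coe_add_int])
    have h1 := hc' 0
    have h2 := hca ((0 : E3).1, (0 : E3).2.1, (0 : E3).2.2 + n)
    have h3 := hc' (la ((0 : E3).1, (0 : E3).2.1, (0 : E3).2.2 + n))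
    have h4 := hca 0
    have h5 : ((la ((0 : E3).1, (0 : E3).2.1, (0 : E3).2.2 + n)).1,
        (la ((0 : E3).1, (0 : E3).2.1, (0 : E3).2.2 + n)).2.1,
        (la ((0 : E3).1, (0 : E3).2.1, (0 : E3).2.2 + n)).2.2 + n) = la 0 := by
      simp [la]
    rw [h5] at h3
    have : c = 0 := by linarith
    intro e
    rw [hc', this, add_zero]
  have tr : ∀ e e' : E3, pr e = pr e' → H e = H e' := by
    rintro ⟨x, y, z⟩ ⟨x', y', z'⟩ h
    simp only [pr, Prod.mk.injEq] at h
    obtain ⟨n1, rfl⟩ := coe_eq_coe h.1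
    obtain ⟨n2, rfl⟩ := coe_eq_coe h.2.1
    obtain ⟨n3, rfl⟩ := coe_eq_coe h.2.2
    have h1 := t1 n1 (x, y + n2, z + n3)
    have h2 := t2 n2 (x, y, z + n3)
    have h3 := t3 n3 (x, y, z)
    simp only at h1 h2 h3
    rw [h1, h2, h3]
  have hca0 : ca = 0 := by
    have h1 := hca 0
    have h2 := hca (la 0)
    have h3 : H (la (la 0)) = H 0 := tr _ _ (by rw [pr_la, pr_la, ra_ra])
    linarith
  have hcb0 : cb = 0 := by
    have h1 := hcb 0
    have h2 := hcb (lb 0)
    have h3 : H (lb (lb 0)) = H 0 := tr _ _ (by rw [pr_lb, pr_lb, rb_rb])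
    linarith
  have fib : ∀ e e' : E3, ff (pr e) = ff (pr e') → H e = H e' := by
    intro e e' h
    rcases ff_eq h with h | h | h | h
    · exact tr _ _ h.symm
    · rw [← pr_la] at h
      rw [tr _ _ h, hca, hca0, add_zero]
    · rw [← pr_lb] at h
      rw [tr _ _ h, hcb, hcb0, add_zero]
    · rw [← ra_rb, ← pr_lb, ← pr_la] at h
      rw [tr _ _ h, hca, hcb, hca0, hcb0, add_zero, add_zero]
  have hs := hq.surjective
  refine ⟨fun y => H (Function.surjInv hs y), ?_, fun y => ?_⟩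
  · rw [hq.continuous_iff]
    refine hc.congr fun e => ?_
    exact fib _ _ (Function.surjInv_eq hs ((ff ∘ pr) e)).symm
  · rw [hH']
    exact congrArg g (Function.surjInv_eq hs y)

instance : LocallyConnectedSpace T3 := quot_pr.isQuotientMap.isCoinducing.locallyConnectedSpace

instance : ConnectedSpace T3 := quot_pr.surjective.connectedSpace quot_pr.continuous

instance : ConnectedSpace HW := surj_ff.connectedSpace cont_ff

theorem T3_not_unicoherent : ∃ A B : Set T3, IsClosed A ∧ IsClosed B ∧ IsConnected A ∧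
    IsConnected B ∧ A ∪ B = Set.univ ∧ ¬ IsConnected (A ∩ B) := by
  have hcoe : Continuous ((↑) : ℝ → UnitAddCircle) := AddCircle.continuous_mk' 1
  have : ConnectedSpace UnitAddCircle :=
    QuotientAddGroup.mk_surjective.connectedSpace hcoe
  let S1 : Set UnitAddCircle := ((↑) : ℝ → UnitAddCircle) '' Icc 0 (1 / 2)
  let S2 : Set UnitAddCircle := ((↑) : ℝ → UnitAddCircle) '' Icc (1 / 2) 1
  have c1 : IsClosed S1 := (isCompact_Icc.image hcoe).isClosed
  have c2 : IsClosed S2 := (isCompact_Icc.image hcoe).isClosed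
  have k1 : IsConnected S1 := (isConnected_Icc (by norm_num)).image _ hcoe.continuousOn
  have k2 : IsConnected S2 := (isConnected_Icc (by norm_num)).image _ hcoe.continuousOn
  refine ⟨S1 ×ˢ univ, S2 ×ˢ univ, c1.prod isClosed_univ, c2.prod isClosed_univ,
    k1.prod isConnected_univ, k2.prod isConnected_univ, ?_, ?_⟩
  · rw [Set.eq_univ_iff_forall]
    rintro ⟨x, y⟩
    obtain ⟨b, hb, rfl⟩ := AddCircle.eq_coe_Ico x
    rcases le_total b (1 / 2) with h | h
    · exact Or.inl ⟨⟨b, ⟨hb.1, h⟩, rfl⟩, trivial⟩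
    · exact Or.inr ⟨⟨b, ⟨h, hb.2.le⟩, rfl⟩, trivial⟩
  · intro hcon
    have h1 : IsPreconnected (Prod.fst '' (S1 ×ˢ (univ : Set (UnitAddCircle × UnitAddCircle)) ∩
        S2 ×ˢ univ)) := hcon.isPreconnected.image _ continuous_fst.continuousOn
    have h2 : Prod.fst '' (S1 ×ˢ (univ : Set (UnitAddCircle × UnitAddCircle)) ∩ S2 ×ˢ univ) ⊆
        {0, hf} := by
      rintro _ ⟨⟨x, y⟩, ⟨⟨⟨s, hs, rfl⟩, -⟩, ⟨⟨t, ht, hts⟩, -⟩⟩, rfl⟩
      obtain ⟨n, hn⟩ := coe_eq_coe hts
      have h3 : (-1 : ℝ) ≤ n := by linarith [hs.1, ht.2]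
      have h4 : (n : ℝ) ≤ 0 := by linarith [hs.2, ht.1]
      have h5 : (-1 : ℤ) ≤ n := by exact_mod_cast h3
      have h6 : n ≤ (0 : ℤ) := by exact_mod_cast h4
      have h7 : n = -1 ∨ n = 0 := by omega
      rcases h7 with rfl | rfl
      · left
        have : s = 0 := by
          push_cast at hn
          linarith [hs.1, ht.2]
        simp [this]
      · right
        have : s = 1 / 2 := by
          push_cast at hn
          linarith [hs.2, ht.1]
        simp only [this, hf, Set.mem_singleton_iff]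
    have h3 : ({0, hf} : Set UnitAddCircle).Countable := (Set.toFinite _).countable
    have h4 := h3.isTotallyDisconnected _ h2 h1
    refine hf_ne (h4 ⟨(hf, 0), ⟨⟨⟨1 / 2, ⟨by norm_num, le_rfl⟩, rfl⟩, trivial⟩,
      ⟨⟨1 / 2, ⟨le_rfl, by norm_num⟩, rfl⟩, trivial⟩⟩, rfl⟩
      ⟨(0, 0), ⟨⟨⟨0, ⟨le_rfl, by norm_num⟩, rfl⟩, trivial⟩,
      ⟨⟨1, ⟨by norm_num, le_rfl⟩, ?_⟩, trivial⟩⟩, rfl⟩)
    simp

end Pool.Agent.H158Z.Unicoh
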